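import Mathlib

/-!
Averages over signs.
-/

set_option linter.unusedSectionVars false

open Finset

namespace Pool.Agent.MP_bc5265

variable {α : Type*} [Fintype α] [DecidableEq α]

/-- The sign of a Boolean. -/
def sg (b : Bool) : ℝ := if b then 1 else -1

@[simp] lemma sg_not (b : Bool) : sg (!b) = -sg b := by cases b <;> simp [sg]

@[simp] lemma sg_mul_self (b : Bool) : sg b * sg b = 1 := by cases b <;> simp [sg]

lemma sg_sq (b : Bool) : sg b ^ 2 = 1 := by cases b <;> simp [sg]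

lemma sum_sg_mul {s s' : α} (h : s ≠ s') : ∑ ε : α → Bool, sg (ε s) * sg (ε s') = 0 := by
  let f : (α → Bool) → (α → Bool) := fun ε => Function.update ε s (!ε s)
  have hf : Function.Involutive f := by
    intro ε
    funext x
    simp only [f]
    by_cases hx : x = s
    · subst hx; simp
    · simp [hx]
  have h1 : ∑ ε : α → Bool, sg (ε s) * sg (ε s') =
      ∑ ε : α → Bool, sg (f ε s) * sg (f ε s') :=
    (Equiv.sum_comp (Function.Involutive.toPerm f hf)
      (fun ε => sg (ε s) * sg (ε s'))).symm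
  have h2 : ∀ ε : α → Bool, sg (f ε s) * sg (f ε s') = -(sg (ε s) * sg (ε s')) := by
    intro ε
    simp only [f, Function.update_self]
    rw [Function.update_of_ne h.symm, sg_not]
    ring
  simp only [h2, Finset.sum_neg_distrib] at h1
  linarith

lemma sum_sg_mul_self (s : α) : ∑ ε : α → Bool, sg (ε s) * sg (ε s) = 2 ^ Fintype.card α := by
  simp

/-- Averages of bilinear expressions. -/
lemma sum_bilin (F : α → α → ℝ) :
    ∑ ε : α → Bool, ∑ s, ∑ s', sg (ε s) * sg (ε s') * F s s' =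
      2 ^ Fintype.card α * ∑ s, F s s := by
  rw [Finset.sum_comm, Finset.mul_sum]
  refine Finset.sum_congr rfl fun s _ => ?_
  rw [Finset.sum_comm]
  rw [Finset.sum_eq_single s]
  · rw [← Finset.sum_mul, sum_sg_mul_self]
  · intro s' _ hne
    rw [← Finset.sum_mul, sum_sg_mul hne.symm, zero_mul]
  · intro h
    exact absurd (Finset.mem_univ _) h

lemma sum_sq (x : α → ℝ) :
    ∑ ε : α → Bool, (∑ s, sg (ε s) * x s) ^ 2 = 2 ^ Fintype.card α * ∑ s, x s ^ 2 := by
  have h := sum_bilin (fun s s' => x s * x s')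
  have h1 : ∑ s, x s ^ 2 = ∑ s, x s * x s := Finset.sum_congr rfl fun s _ => by ring
  rw [h1, ← h]
  refine Finset.sum_congr rfl fun ε _ => ?_
  rw [sq, Finset.sum_mul_sum]
  refine Finset.sum_congr rfl fun s _ => Finset.sum_congr rfl fun s' _ => ?_
  ring

lemma rpow_sum_le {β : Type*} (S : Finset β) (x : β → ℝ) (hx : ∀ b, 0 ≤ x b) {θ : ℝ}
    (hθ : 0 < θ) (hθ1 : θ ≤ 1) : (∑ s ∈ S, x s) ^ θ ≤ ∑ s ∈ S, x s ^ θ := by
  classical
  induction S using Finset.induction_on with
  | empty => simp [Real.zero_rpow hθ.ne']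
  | insert a S ha ih =>
    rw [Finset.sum_insert ha, Finset.sum_insert ha]
    exact (Real.rpow_add_le_add_rpow (hx a) (Finset.sum_nonneg fun b _ => hx b) hθ.le hθ1).trans
      (add_le_add le_rfl ih)

/-- Moments of order at most two. -/
lemma sum_rpow_le (x : α → ℝ) {p : ℝ} (hp : 1 ≤ p) (hp2 : p ≤ 2) :
    ∑ ε : α → Bool, |∑ s, sg (ε s) * x s| ^ p ≤ 2 ^ Fintype.card α * ∑ s, |x s| ^ p := by
  have hp0 : 0 < p := by linarith
  set M : ℝ := 2 ^ Fintype.card α with hM
  have hMpos : 0 < M := by positivity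
  have hcard : (Finset.univ : Finset (α → Bool)).card = 2 ^ Fintype.card α := by
    simp
  have hw : ∑ _ε : α → Bool, (1 / M) = 1 := by
    rw [Finset.sum_const, hcard, nsmul_eq_mul]
    push_cast
    rw [← hM]
    field_simp
  have h1 := Real.rpow_arith_mean_le_arith_mean_rpow (Finset.univ : Finset (α → Bool))
    (fun _ => 1 / M) (fun ε => |∑ s, sg (ε s) * x s| ^ p) (fun _ _ => by positivity) hw
    (fun _ _ => by positivity) (p := 2 / p) (by rw [le_div_iff₀ hp0]; linarith)
  have h2 : ∀ ε : α → Bool, (|∑ s, sg (ε s) * x s| ^ p) ^ (2 / p) = (∑ s, sg (ε s) * x s) ^ 2 := by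
    intro ε
    rw [← Real.rpow_mul (abs_nonneg _), mul_div_cancel₀ _ hp0.ne']
    rw [show (2 : ℝ) = ((2 : ℕ) : ℝ) by norm_num, Real.rpow_natCast, sq_abs]
  simp only [h2, ← Finset.mul_sum] at h1
  rw [sum_sq, ← hM] at h1
  have h3 : 1 / M * (M * ∑ s, x s ^ 2) = ∑ s, x s ^ 2 := by field_simp
  rw [h3] at h1
  have hA : 0 ≤ 1 / M * ∑ ε : α → Bool, |∑ s, sg (ε s) * x s| ^ p := by positivity
  have h4 : 1 / M * ∑ ε : α → Bool, |∑ s, sg (ε s) * x s| ^ p ≤ ∑ s, |x s| ^ p := by
    have h5 := Real.rpow_le_rpow (by positivity) h1 (z := p / 2) (by positivity)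
    rw [← Real.rpow_mul hA] at h5
    rw [show 2 / p * (p / 2) = 1 by field_simp, Real.rpow_one] at h5
    refine h5.trans ?_
    refine (rpow_sum_le Finset.univ (fun s => x s ^ 2) (fun s => sq_nonneg _) (by positivity)
      (by linarith)).trans (le_of_eq ?_)
    refine Finset.sum_congr rfl fun s _ => ?_
    rw [← sq_abs, ← Real.rpow_natCast |x s| 2, ← Real.rpow_mul (abs_nonneg _)]
    congr 1
    push_cast
    ring
  calc ∑ ε : α → Bool, |∑ s, sg (ε s) * x s| ^ p
      = M * (1 / M * ∑ ε : α → Bool, |∑ s, sg (ε s) * x s| ^ p) := by field_simp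
    _ ≤ M * ∑ s, |x s| ^ p := mul_le_mul_of_nonneg_left h4 hMpos.le

end Pool.Agent.MP_bc5265
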