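import Mathlib
import Pool.Agent.Lib.MP_bc5265_an.Signs

section
/-!
Finite dimensional part: a matrix `T = 1 - Y Z` with `Y Z` of small rank, in block form,
has many disjoint groups of column blocks each of which is heavy in one row.
-/
set_option linter.unusedSectionVars false

open Finset

namespace Pool.Agent.MP_bc5265

/-- If all nonempty subsets have small sum then the sum of the squares is small. -/
lemma sum_sq_le_of_forall {B : Type*} [DecidableEq B] (t : B → ℝ) (ht : ∀ b, 0 ≤ t b)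
    (c θ : ℝ) :
    ∀ W : Finset B, (∀ S ⊆ W, S.Nonempty → ∑ b ∈ S, t b ≤ c * (S.card : ℝ) ^ θ) →
      ∑ b ∈ W, t b ^ 2 ≤ c ^ 2 * ∑ j ∈ range W.card, ((j : ℝ) + 1) ^ (2 * θ - 2) := by
  intro W
  induction hk : W.card generalizing W with
  | zero =>
    intro _
    have : W = ∅ := Finset.card_eq_zero.1 hk
    simp [this]
  | succ k ih =>
    intro h
    have hne : W.Nonempty := by
      rw [← Finset.card_pos]; omega
    obtain ⟨s0, hs0, hmin⟩ := Finset.exists_min_image W t hne
    have h1 := ih (W.erase s0) (by rw [Finset.card_erase_of_mem hs0]; omega)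
      (fun S hS hSne => h S (hS.trans (Finset.erase_subset _ _)) hSne)
    have h2 : ((k : ℝ) + 1) * t s0 ≤ c * ((k : ℝ) + 1) ^ θ := by
      have h3 := h W (Finset.Subset.refl _) hne
      have h4 : (W.card : ℝ) * t s0 ≤ ∑ b ∈ W, t b := by
        have := Finset.card_nsmul_le_sum W t (t s0) (fun b hb => hmin b hb)
        simpa [nsmul_eq_mul] using this
      have h5 : (W.card : ℝ) = (k : ℝ) + 1 := by rw [hk]; push_cast; ring
      rw [h5] at h3 h4
      linarith
    have hk1 : (0 : ℝ) < (k : ℝ) + 1 := by positivity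
    have h6 : t s0 ≤ c * ((k : ℝ) + 1) ^ (θ - 1) := by
      rw [Real.rpow_sub hk1, Real.rpow_one]
      rw [← mul_div_assoc, le_div_iff₀ hk1]
      linarith
    have h7 : t s0 ^ 2 ≤ c ^ 2 * ((k : ℝ) + 1) ^ (2 * θ - 2) := by
      have h8 : (c * ((k : ℝ) + 1) ^ (θ - 1)) ^ 2 = c ^ 2 * ((k : ℝ) + 1) ^ (2 * θ - 2) := by
        rw [mul_pow, ← Real.rpow_natCast (((k : ℝ) + 1) ^ (θ - 1)) 2, ← Real.rpow_mul hk1.le]
        congr 2
        push_cast
        ring
      rw [← h8]
      exact pow_le_pow_left₀ (ht s0) h6 2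
    rw [← Finset.sum_erase_add _ _ hs0, Finset.sum_range_succ, mul_add]
    exact add_le_add h1 h7

/-- The constant of the selection lemma. -/
noncomputable def Zq (q : ℝ) : ℝ := ∑' j : ℕ, ((j : ℝ) + 1) ^ (2 / q - 2)

lemma summable_Zq {q : ℝ} (hq : 2 < q) : Summable fun j : ℕ => ((j : ℝ) + 1) ^ (2 / q - 2) := by
  have h1 : (2 / q - 2) < -1 := by
    have : 2 / q < 1 := by rw [div_lt_one (by linarith)]; exact hq
    linarith
  have h2 := (summable_nat_add_iff 1).2 (Real.summable_nat_rpow.2 h1)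
  refine h2.congr ?_
  intro j
  push_cast
  rfl

lemma Zq_nonneg (q : ℝ) : 0 ≤ Zq q := tsum_nonneg fun j => by positivity

/-- The constant of the selection lemma. -/
noncomputable def cq (q : ℝ) : ℝ := 1 / (2 * Real.sqrt (Zq q + 1))

lemma cq_pos (q : ℝ) : 0 < cq q := by
  unfold cq
  have := Zq_nonneg q
  positivity

lemma exists_heavy {q : ℝ} (hq : 2 < q) {B : Type*} [DecidableEq B] (t : B → ℝ)
    (ht : ∀ b, 0 ≤ t b) (W : Finset B) (hW : 1 / 2 ≤ ∑ b ∈ W, t b ^ 2) :
    ∃ S ⊆ W, S.Nonempty ∧ cq q * (S.card : ℝ) ^ (1 / q) ≤ ∑ b ∈ S, t b := by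
  by_contra hcon
  push Not at hcon
  have h1 := sum_sq_le_of_forall t ht (cq q) (1 / q) W (fun S hS hne => (hcon S hS hne).le)
  have h2 : ∑ j ∈ range W.card, ((j : ℝ) + 1) ^ (2 * (1 / q) - 2) ≤ Zq q := by
    have := (summable_Zq hq).sum_le_tsum (range W.card) (fun j _ => by positivity)
    have h3 : 2 * (1 / q) = 2 / q := by ring
    rw [h3]
    exact this
  have h4 : cq q ^ 2 * Zq q ≤ 1 / 4 := by
    unfold cq
    rw [div_pow, mul_pow, Real.sq_sqrt (by have := Zq_nonneg q; linarith)]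
    rw [one_pow, div_mul_eq_mul_div, one_mul, div_le_div_iff₀ (by have := Zq_nonneg q; positivity)
      (by norm_num)]
    have := Zq_nonneg q
    nlinarith
  have h5 : ∑ b ∈ W, t b ^ 2 ≤ cq q ^ 2 * Zq q :=
    h1.trans (mul_le_mul_of_nonneg_left h2 (by positivity))
  linarith

/-- A matrix at distance `1` from a matrix of small rank has large Hilbert-Schmidt norm. -/
lemma rank_bound {n J : Type*} [Fintype n] [DecidableEq n] [Fintype J] (Y : n → J → ℝ)
    (Z : J → n → ℝ) :
    (Fintype.card n : ℝ) - Fintype.card J ≤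
      ∑ i, ∑ i', ((if i = i' then (1 : ℝ) else 0) - ∑ j, Y i j * Z j i') ^ 2 := by
  classical
  let A : EuclideanSpace ℝ n →ₗ[ℝ] (J → ℝ) :=
    { toFun := fun u j => ∑ i, u i * Y i j
      map_add' := by
        intro u v
        ext j
        simp [add_mul, Finset.sum_add_distrib]
      map_smul' := by
        intro c u
        ext j
        simp [Finset.mul_sum, mul_assoc] }
  let U := LinearMap.ker A
  have hdim : (Fintype.card n : ℝ) - Fintype.card J ≤ Module.finrank ℝ U := by
    have h1 := LinearMap.finrank_range_add_finrank_ker A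
    have h2 : Module.finrank ℝ (LinearMap.range A) ≤ Fintype.card J := by
      have := Submodule.finrank_le (LinearMap.range A)
      simpa using this
    have h3 : Module.finrank ℝ (EuclideanSpace ℝ n) = Fintype.card n := finrank_euclideanSpace
    rw [h3] at h1
    have h4 : (Module.finrank ℝ (LinearMap.range A) : ℝ) + Module.finrank ℝ U
        = Fintype.card n := by exact_mod_cast h1
    have h5 : (Module.finrank ℝ (LinearMap.range A) : ℝ) ≤ Fintype.card J := by exact_mod_cast h2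
    linarith
  refine hdim.trans ?_
  let b := stdOrthonormalBasis ℝ U
  -- columns
  let col : n → EuclideanSpace ℝ n := fun i' =>
    WithLp.toLp 2 (fun i => (if i = i' then (1 : ℝ) else 0) - ∑ j, Y i j * Z j i')
  have hcol : ∀ i' i, col i' i = (if i = i' then (1 : ℝ) else 0) - ∑ j, Y i j * Z j i' := by
    intro i' i
    rfl
  let v : Fin (Module.finrank ℝ U) → EuclideanSpace ℝ n := fun l => (b l : EuclideanSpace ℝ n)
  have hv : Orthonormal ℝ v := by
    have := b.orthonormal
    exact this.comp_linearIsometry U.subtypeₗᵢ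
  have hinner : ∀ l i', inner ℝ (v l) (col i') = v l i' := by
    intro l i'
    rw [PiLp.inner_apply]
    have hker : ∀ j, ∑ i, v l i * Y i j = 0 := by
      intro j
      have h1 : A (v l) = 0 := (b l).2
      exact congrFun h1 j
    have h1 : ∀ i, inner ℝ (v l i) (col i' i) =
        (if i = i' then v l i else 0) - ∑ j, Z j i' * (v l i * Y i j) := by
      intro i
      rw [hcol]
      simp only [RCLike.inner_apply, conj_trivial]
      rw [sub_mul, Finset.sum_mul]
      congr 1
      · split_ifs <;> simp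
      · refine Finset.sum_congr rfl fun j _ => ?_
        ring
    rw [Finset.sum_congr rfl fun i _ => h1 i, Finset.sum_sub_distrib, Finset.sum_comm]
    have h2 : ∑ j, ∑ i, Z j i' * (v l i * Y i j) = 0 := by
      refine Finset.sum_eq_zero fun j _ => ?_
      rw [← Finset.mul_sum, hker j, mul_zero]
    rw [h2, sub_zero]
    simp
  have hbes : ∀ i', ∑ l, (v l i') ^ 2 ≤ ∑ i, (col i' i) ^ 2 := by
    intro i'
    have h1 := hv.sum_inner_products_le (x := col i') (s := Finset.univ)
    have h2 : ‖col i'‖ ^ 2 = ∑ i, (col i' i) ^ 2 := by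
      rw [EuclideanSpace.norm_sq_eq]
      simp
    rw [h2] at h1
    refine le_trans (le_of_eq ?_) h1
    refine Finset.sum_congr rfl fun l _ => ?_
    rw [hinner l i']
    simp
  have hone : ∀ l, ∑ i', (v l i') ^ 2 = 1 := by
    intro l
    have h1 : ‖v l‖ = 1 := hv.1 l
    have h2 : ‖v l‖ ^ 2 = ∑ i, (v l i) ^ 2 := by
      rw [EuclideanSpace.norm_sq_eq]
      simp
    rw [← h2, h1, one_pow]
  calc (Module.finrank ℝ U : ℝ) = ∑ l : Fin (Module.finrank ℝ U), ∑ i', (v l i') ^ 2 := by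
        simp [hone]
    _ = ∑ i', ∑ l, (v l i') ^ 2 := Finset.sum_comm
    _ ≤ ∑ i', ∑ i, (col i' i) ^ 2 := Finset.sum_le_sum fun i' _ => hbes i'
    _ = ∑ i, ∑ i', (col i' i) ^ 2 := Finset.sum_comm
    _ = _ := by
        refine Finset.sum_congr rfl fun i _ => Finset.sum_congr rfl fun i' _ => ?_
        rw [hcol]

section blocks

variable {B : Type*} [Fintype B] [DecidableEq B] {ι : B → Type*} [∀ b, Fintype (ι b)]
  [∀ b, DecidableEq (ι b)] {J : Type*} [Fintype J]

/-- Norm of the part of row `i` in the column block `b`. -/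
noncomputable def tnorm (T : (Σ b, ι b) → (Σ b, ι b) → ℝ) (i : Σ b, ι b) (b : B) : ℝ :=
  Real.sqrt (∑ k : ι b, T i ⟨b, k⟩ ^ 2)

lemma tnorm_nonneg (T : (Σ b, ι b) → (Σ b, ι b) → ℝ) (i : Σ b, ι b) (b : B) :
    0 ≤ tnorm T i b := Real.sqrt_nonneg _

lemma tnorm_sq (T : (Σ b, ι b) → (Σ b, ι b) → ℝ) (i : Σ b, ι b) (b : B) :
    tnorm T i b ^ 2 = ∑ k : ι b, T i ⟨b, k⟩ ^ 2 :=
  Real.sq_sqrt (Finset.sum_nonneg fun _ _ => sq_nonneg _)

/-- Some row is heavy in every large set of blocks. -/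
lemma exists_row (N : ℕ) (hN : 0 < N) (hcard : ∀ b, Fintype.card (ι b) = N)
    (Y : (Σ b, ι b) → J → ℝ) (Z : J → (Σ b, ι b) → ℝ)
    (hJ : 4 * Fintype.card J ≤ N * Fintype.card B) (T : (Σ b, ι b) → (Σ b, ι b) → ℝ)
    (hT : ∀ i i', T i i' = (if i = i' then (1 : ℝ) else 0) - ∑ j, Y i j * Z j i')
    (W : Finset B) (hW : Fintype.card B ≤ 2 * W.card) (hWne : W.Nonempty) :
    ∃ i, 1 / 2 ≤ ∑ b ∈ W, tnorm T i b ^ 2 := by
  classical
  by_contra hcon
  push Not at hcon
  let n := Σ b : W, ι b.1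
  let emb : n → Σ b, ι b := fun x => ⟨x.1.1, x.2⟩
  have hinj : Function.Injective emb := by
    rintro ⟨⟨b, hb⟩, k⟩ ⟨⟨b', hb'⟩, k'⟩ h
    simp only [emb] at h
    obtain ⟨h1, h2⟩ := Sigma.mk.inj_iff.1 h
    subst h1
    simp only [heq_eq_eq] at h2
    subst h2
    rfl
  have h1 := rank_bound (n := n) (J := J) (fun i j => Y (emb i) j) (fun j i' => Z j (emb i'))
  have h2 : ∀ i i' : n, ((if i = i' then (1 : ℝ) else 0) - ∑ j, Y (emb i) j * Z j (emb i'))
      = T (emb i) (emb i') := by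
    intro i i'
    rw [hT]
    simp only [hinj.eq_iff]
  simp only [h2] at h1
  have hcn : (Fintype.card n : ℝ) = N * W.card := by
    have : Fintype.card n = N * W.card := by
      rw [Fintype.card_sigma]
      simp [hcard, mul_comm]
    rw [this]
    push_cast
    ring
  have h3 : ∀ i : n, ∑ i' : n, T (emb i) (emb i') ^ 2 = ∑ b ∈ W, tnorm T (emb i) b ^ 2 := by
    intro i
    rw [Fintype.sum_sigma, ← Finset.sum_coe_sort W]
    refine Finset.sum_congr rfl fun b _ => ?_
    rw [tnorm_sq]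
  simp only [h3] at h1
  have h4 : ∑ i : n, ∑ b ∈ W, tnorm T (emb i) b ^ 2 < ∑ _i : n, (1 / 2 : ℝ) := by
    apply Finset.sum_lt_sum_of_nonempty
    · have : 0 < Fintype.card n := by
        have h5 : (0 : ℝ) < Fintype.card n := by
          rw [hcn]
          have : 0 < W.card := Finset.card_pos.2 hWne
          positivity
        exact_mod_cast h5
      exact Finset.univ_nonempty_iff.2 (Fintype.card_pos_iff.1 this)
    · intro i _
      exact hcon (emb i)
  rw [Finset.sum_const, Finset.card_univ, nsmul_eq_mul, hcn] at h4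
  rw [hcn] at h1
  have h6 : (4 : ℝ) * Fintype.card J ≤ N * Fintype.card B := by exact_mod_cast hJ
  have h7 : (Fintype.card B : ℝ) ≤ 2 * W.card := by exact_mod_cast hW
  have h8 : (N : ℝ) * Fintype.card B ≤ N * (2 * W.card) :=
    mul_le_mul_of_nonneg_left h7 (by positivity)
  linarith

/-- The greedy family of disjoint groups of blocks. -/
lemma exists_family {q : ℝ} (hq : 2 < q) (N : ℕ) (hN : 0 < N)
    (hcard : ∀ b, Fintype.card (ι b) = N)
    (Y : (Σ b, ι b) → J → ℝ) (Z : J → (Σ b, ι b) → ℝ)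
    (hJ : 4 * Fintype.card J ≤ N * Fintype.card B) (T : (Σ b, ι b) → (Σ b, ι b) → ℝ)
    (hT : ∀ i i', T i i' = (if i = i' then (1 : ℝ) else 0) - ∑ j, Y i j * Z j i') :
    ∃ F : Finset (Finset B), (∀ S ∈ F, ∀ S' ∈ F, S ≠ S' → Disjoint S S') ∧
      (∀ S ∈ F, ∃ i, cq q * (S.card : ℝ) ^ (1 / q) ≤ ∑ b ∈ S, tnorm T i b) ∧
      Fintype.card B ≤ 2 * ∑ S ∈ F, S.card := by
  classical
  let P : Finset (Finset B) → Prop := fun F =>
    (∀ S ∈ F, ∀ S' ∈ F, S ≠ S' → Disjoint S S') ∧ (∀ S ∈ F, S.Nonempty) ∧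
      (∀ S ∈ F, ∃ i, cq q * (S.card : ℝ) ^ (1 / q) ≤ ∑ b ∈ S, tnorm T i b)
  have hne : (Finset.univ.filter P).Nonempty := ⟨∅, by simp [P]⟩
  obtain ⟨F, hF, hmax⟩ := Finset.exists_max_image (Finset.univ.filter P) Finset.card hne
  rw [Finset.mem_filter] at hF
  obtain ⟨-, hdis, hnon, hrow⟩ := hF
  refine ⟨F, hdis, hrow, ?_⟩
  by_contra hlt
  push Not at hlt
  let V : Finset B := F.biUnion id
  have hV : V.card = ∑ S ∈ F, S.card := by
    rw [Finset.card_biUnion]
    · rfl
    · intro S hS S' hS' hne'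
      exact hdis S hS S' hS' hne'
  let W := Finset.univ \ V
  have hWcard : W.card + V.card = Fintype.card B := by
    have := Finset.card_sdiff_add_card_inter (Finset.univ : Finset B) V
    rw [Finset.univ_inter, Finset.card_univ] at this
    exact this
  have hWbig : Fintype.card B ≤ 2 * W.card := by omega
  have hWne : W.Nonempty := by
    rw [← Finset.card_pos]; omega
  obtain ⟨i, hi⟩ := exists_row N hN hcard Y Z hJ T hT W hWbig hWne
  obtain ⟨S, hSW, hSne, hS⟩ := exists_heavy hq (fun b => tnorm T i b)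
    (fun b => tnorm_nonneg T i b) W hi
  have hSdis : ∀ S' ∈ F, Disjoint S S' := by
    intro S' hS'
    rw [Finset.disjoint_left]
    intro b hb hb'
    have h1 := hSW hb
    rw [Finset.mem_sdiff] at h1
    exact h1.2 (Finset.mem_biUnion.2 ⟨S', hS', hb'⟩)
  have hSF : S ∉ F := by
    intro hmem
    have := hSdis S hmem
    rw [disjoint_self] at this
    exact hSne.ne_empty this
  have hP : P (insert S F) := by
    refine ⟨?_, ?_, ?_⟩
    · intro S1 h1 S2 h2 hne'
      rw [Finset.mem_insert] at h1 h2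
      rcases h1 with rfl | h1 <;> rcases h2 with rfl | h2
      · exact absurd rfl hne'
      · exact hSdis S2 h2
      · exact (hSdis S1 h1).symm
      · exact hdis S1 h1 S2 h2 hne'
    · intro S1 h1
      rw [Finset.mem_insert] at h1
      rcases h1 with rfl | h1
      · exact hSne
      · exact hnon S1 h1
    · intro S1 h1
      rw [Finset.mem_insert] at h1
      rcases h1 with rfl | h1
      · exact ⟨i, hS⟩
      · exact hrow S1 h1
  have h3 := hmax (insert S F) (by rw [Finset.mem_filter]; exact ⟨Finset.mem_univ _, hP⟩)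
  rw [Finset.card_insert_of_notMem hSF] at h3
  omega

end blocks

end Pool.Agent.MP_bc5265
end

section
/-!
The abstract lower bound: a linear method using few functionals has a large error
on some combination of well localized functions.
-/
set_option linter.unusedSectionVars false

open Finset MeasureTheory

namespace Pool.Agent.MP_bc5265

variable {B : Type*} [Fintype B] [DecidableEq B] {ι : B → Type*} [∀ b, Fintype (ι b)]
  [∀ b, DecidableEq (ι b)] {J : Type*} [Fintype J]
  {X : Type*} [MeasurableSpace X]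

/-- The error function. -/
def gerr (φ : (Σ b, ι b) → X → ℝ) (ψ : J → X → ℝ) (L : ((Σ b, ι b) → ℝ) →ₗ[ℝ] (J → ℝ))
    (a : (Σ b, ι b) → ℝ) (x : X) : ℝ := ∑ i, a i * φ i x - ∑ j, L a j * ψ j x

lemma gerr_sum (φ : (Σ b, ι b) → X → ℝ) (ψ : J → X → ℝ)
    (L : ((Σ b, ι b) → ℝ) →ₗ[ℝ] (J → ℝ)) {α : Type*} (s : Finset α) (c : α → ℝ)
    (u : α → (Σ b, ι b) → ℝ) (x : X) :
    gerr φ ψ L (∑ t ∈ s, c t • u t) x = ∑ t ∈ s, c t * gerr φ ψ L (u t) x := by
  unfold gerr
  simp only [map_sum, map_smul, Finset.sum_apply, Pi.smul_apply, smul_eq_mul, mul_sub,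
    Finset.sum_sub_distrib, Finset.mul_sum, Finset.sum_mul]
  congr 1
  · rw [Finset.sum_comm]
    refine Finset.sum_congr rfl fun t _ => Finset.sum_congr rfl fun i _ => ?_
    ring
  · rw [Finset.sum_comm]
    refine Finset.sum_congr rfl fun t _ => Finset.sum_congr rfl fun i _ => ?_
    ring

lemma memLp_gerr {p : ENNReal} {μ : Measure X} (φ : (Σ b, ι b) → X → ℝ) (ψ : J → X → ℝ)
    (L : ((Σ b, ι b) → ℝ) →ₗ[ℝ] (J → ℝ)) (hφ : ∀ i, MemLp (φ i) p μ)
    (hψ : ∀ j, MemLp (ψ j) p μ) (a : (Σ b, ι b) → ℝ) : MemLp (gerr φ ψ L a) p μ := by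
  unfold gerr
  refine MemLp.sub ?_ ?_
  · exact memLp_finsetSum _ fun i _ => (hφ i).const_mul (a i)
  · exact memLp_finsetSum _ fun j _ => (hψ j).const_mul (L a j)

section main

variable {q κ : ℝ} (μ : Measure X) [IsProbabilityMeasure μ] (N : ℕ)
  (φ h : (Σ b, ι b) → X → ℝ) (ψ : J → X → ℝ) (L : ((Σ b, ι b) → ℝ) →ₗ[ℝ] (J → ℝ))

/-- Coefficients of the method. -/
noncomputable def Ymat (κ : ℝ) (i : Σ b, ι b) (j : J) : ℝ := N / κ * ∫ x, ψ j x * h i x ∂μ

/-- Values of the functionals. -/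
def Zmat (j : J) (i : Σ b, ι b) : ℝ := L (Pi.single i 1) j

/-- The error matrix. -/
noncomputable def Tmat (κ : ℝ) (i i' : Σ b, ι b) : ℝ :=
  (if i = i' then (1 : ℝ) else 0) - ∑ j, Ymat μ N h ψ κ i j * Zmat L j i'

lemma pairing (hκ : 0 < κ) (hN : 0 < N) (hφ : ∀ i, Integrable (φ i) μ)
    (hhm : ∀ i, AEStronglyMeasurable (h i) μ) (hh : ∀ i x, |h i x| ≤ 1)
    (horth : ∀ i i', ∫ x, φ i' x * h i x ∂μ = if i = i' then κ / N else 0)
    (hψ : ∀ j, Integrable (ψ j) μ) (a : (Σ b, ι b) → ℝ) (i : Σ b, ι b) :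
    ∫ x, gerr φ ψ L a x * h i x ∂μ = κ / N * ∑ i', Tmat μ N h ψ L κ i i' * a i' := by
  have hint : ∀ f : X → ℝ, Integrable f μ → Integrable (fun x => f x * h i x) μ := by
    intro f hf
    refine hf.mul_bdd (c := 1) (hhm i) ?_
    filter_upwards with x
    simpa using hh i x
  have hL : ∀ j, L a j = ∑ i', a i' * Zmat L j i' := by
    intro j
    have h1 : a = ∑ i', a i' • (Pi.single i' (1 : ℝ) : (Σ b, ι b) → ℝ) := by
      funext i0
      simp only [Finset.sum_apply, Pi.smul_apply, smul_eq_mul, Pi.single_apply, mul_ite, mul_one,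
        mul_zero]
      simp
    conv_lhs => rw [h1]
    simp only [map_sum, map_smul, Finset.sum_apply, Pi.smul_apply, smul_eq_mul, Zmat]
  have h1 : ∫ x, gerr φ ψ L a x * h i x ∂μ =
      ∑ i', a i' * ∫ x, φ i' x * h i x ∂μ - ∑ j, L a j * ∫ x, ψ j x * h i x ∂μ := by
    have h2 : ∀ x, gerr φ ψ L a x * h i x =
        ∑ i', a i' * (φ i' x * h i x) - ∑ j, L a j * (ψ j x * h i x) := by
      intro x
      unfold gerr
      rw [sub_mul, Finset.sum_mul, Finset.sum_mul]
      simp only [mul_assoc]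
    simp only [h2]
    rw [integral_sub, integral_finsetSum, integral_finsetSum]
    · simp only [integral_const_mul]
    · intro j _
      exact (hint _ (hψ j)).const_mul _
    · intro i' _
      exact (hint _ (hφ i')).const_mul _
    · exact integrable_finsetSum _ fun i' _ => (hint _ (hφ i')).const_mul _
    · exact integrable_finsetSum _ fun j _ => (hint _ (hψ j)).const_mul _
  rw [h1]
  have h3 : ∀ j, ∫ x, ψ j x * h i x ∂μ = κ / N * Ymat μ N h ψ κ i j := by
    intro j
    have hN' : (N : ℝ) ≠ 0 := by exact_mod_cast hN.ne'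
    unfold Ymat
    field_simp
  simp only [h3, horth, hL, Tmat]
  have h4 : ∑ i', a i' * (if i = i' then κ / (N : ℝ) else 0) = κ / N * a i := by
    simp [mul_comm]
  rw [h4, Finset.mul_sum]
  simp only [sub_mul, mul_sub, Finset.sum_sub_distrib]
  congr 1
  · simp
  · simp only [Finset.mul_sum, Finset.sum_mul]
    rw [Finset.sum_comm]
    refine Finset.sum_congr rfl fun i' _ => Finset.sum_congr rfl fun j _ => ?_
    ring

end main

/-- The test vector of one group of blocks. -/
noncomputable def uvec (T : (Σ b, ι b) → (Σ b, ι b) → ℝ) (i : Σ b, ι b) (S : Finset B)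
    (x : Σ b, ι b) : ℝ := if x.1 ∈ S then T i x / tnorm T i x.1 else 0

lemma sum_T_uvec (T : (Σ b, ι b) → (Σ b, ι b) → ℝ) (i : Σ b, ι b) (S : Finset B) :
    ∑ x, T i x * uvec T i S x = ∑ b ∈ S, tnorm T i b := by
  rw [Fintype.sum_sigma]
  rw [← Finset.sum_filter_add_sum_filter_not Finset.univ (fun b => b ∈ S)]
  have h1 : (Finset.univ.filter fun b => b ∈ S) = S := by ext; simp
  rw [h1]
  have h2 : ∑ b ∈ Finset.univ.filter (fun b => b ∉ S),
      ∑ k, T i ⟨b, k⟩ * uvec T i S ⟨b, k⟩ = 0 := by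
    refine Finset.sum_eq_zero fun b hb => ?_
    rw [Finset.mem_filter] at hb
    refine Finset.sum_eq_zero fun k _ => ?_
    simp [uvec, hb.2]
  rw [h2, add_zero]
  refine Finset.sum_congr rfl fun b hb => ?_
  have h3 : ∀ k, T i ⟨b, k⟩ * uvec T i S ⟨b, k⟩ = T i ⟨b, k⟩ ^ 2 / tnorm T i b := by
    intro k
    simp only [uvec, hb, if_true]
    ring
  simp only [h3]
  rw [← Finset.sum_div, ← tnorm_sq]
  by_cases h0 : tnorm T i b = 0
  · simp [h0]
  · rw [sq, mul_div_assoc, div_self h0, mul_one]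

theorem abstract_lower {q : ℝ} (hq : 2 < q) {κ : ℝ} (hκ : 0 < κ)
    (μ : Measure X) [IsProbabilityMeasure μ]
    (N : ℕ) (hN : 0 < N) (hcard : ∀ b, Fintype.card (ι b) = N)
    (hJ : 4 * Fintype.card J ≤ N * Fintype.card B)
    (φ h : (Σ b, ι b) → X → ℝ)
    (hφ : ∀ i, MemLp (φ i) (ENNReal.ofReal q) μ)
    (hhm : ∀ i, AEStronglyMeasurable (h i) μ)
    (hh : ∀ i x, |h i x| ≤ 1)
    (hh1 : ∀ i, ∫ x, |h i x| ∂μ ≤ 1 / N)
    (horth : ∀ i i', ∫ x, φ i' x * h i x ∂μ = if i = i' then κ / N else 0)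
    (ψ : J → X → ℝ) (hψ : ∀ j, MemLp (ψ j) (ENNReal.ofReal q) μ)
    (L : ((Σ b, ι b) → ℝ) →ₗ[ℝ] (J → ℝ)) :
    ∃ a : (Σ b, ι b) → ℝ, (∀ b, ∑ k, a ⟨b, k⟩ ^ 2 ≤ 1) ∧
      q * (κ / 2) ^ q * cq q ^ q / 2 * (Fintype.card B / N) ≤
        ∫ x, |gerr φ ψ L a x| ^ q ∂μ := by
  classical
  have hq0 : 0 < q := by linarith
  have hq1 : 1 < q := by linarith
  have hone : (1 : ENNReal) ≤ ENNReal.ofReal q := by
    rw [← ENNReal.ofReal_one]
    exact ENNReal.ofReal_le_ofReal hq1.le
  have hφi : ∀ i, Integrable (φ i) μ := fun i => (hφ i).integrable hone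
  have hψi : ∀ j, Integrable (ψ j) μ := fun j => (hψ j).integrable hone
  set T := Tmat μ N h ψ L κ with hTdef
  obtain ⟨F, hdis, hrow, hbig⟩ := exists_family hq N hN hcard (Ymat μ N h ψ κ) (Zmat L) hJ T
    (fun i i' => rfl)
  choose R0 hR0 using hrow
  let α := {S // S ∈ F}
  let R : α → Σ b, ι b := fun s => R0 s.1 s.2
  let σ : α → ℝ := fun s => ∑ b ∈ s.1, tnorm T (R s) b
  have hσ0 : ∀ s, 0 ≤ σ s := fun s => Finset.sum_nonneg fun b _ => tnorm_nonneg _ _ _
  have hσ : ∀ s : α, cq q * (s.1.card : ℝ) ^ (1 / q) ≤ σ s := fun s => hR0 s.1 s.2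
  let u : α → (Σ b, ι b) → ℝ := fun s => uvec T (R s) s.1
  let aε : (α → Bool) → (Σ b, ι b) → ℝ := fun ε => ∑ s, sg (ε s) • u s
  -- the blocks of the test vectors
  have hblock : ∀ ε b, ∑ k, aε ε ⟨b, k⟩ ^ 2 ≤ 1 := by
    intro ε b
    by_cases hb : ∃ s : α, b ∈ s.1
    · obtain ⟨s, hs⟩ := hb
      have h1 : ∀ k, aε ε ⟨b, k⟩ = sg (ε s) * (T (R s) ⟨b, k⟩ / tnorm T (R s) b) := by
        intro k
        simp only [aε, Finset.sum_apply, Pi.smul_apply, smul_eq_mul]
        rw [Finset.sum_eq_single s]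
        · simp [u, uvec, hs]
        · intro s' _ hne
          have h2 : b ∉ s'.1 := by
            intro hb'
            have h3 := hdis s.1 s.2 s'.1 s'.2 (fun h => hne (Subtype.ext h.symm))
            exact (Finset.disjoint_left.1 h3) hs hb'
          simp [u, uvec, h2]
        · intro h; exact absurd (Finset.mem_univ _) h
      have h2 : ∀ k, aε ε ⟨b, k⟩ ^ 2 = T (R s) ⟨b, k⟩ ^ 2 / tnorm T (R s) b ^ 2 := by
        intro k
        rw [h1, mul_pow, sg_sq, one_mul, div_pow]
      simp only [h2]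
      rw [← Finset.sum_div, ← tnorm_sq]
      exact div_self_le_one _
    · push Not at hb
      have h1 : ∀ k, aε ε ⟨b, k⟩ = 0 := by
        intro k
        simp only [aε, Finset.sum_apply, Pi.smul_apply, smul_eq_mul]
        refine Finset.sum_eq_zero fun s _ => ?_
        simp [u, uvec, hb s]
      simp [h1]
  by_contra hcon
  push Not at hcon
  have hlt : ∀ ε, ∫ x, |gerr φ ψ L (aε ε) x| ^ q ∂μ <
      q * (κ / 2) ^ q * cq q ^ q / 2 * (Fintype.card B / N) := fun ε => hcon (aε ε) (hblock ε)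
  -- parameters
  set τ : ℝ := (κ / 2) ^ (q - 1) with hτ
  have hκ2 : 0 < κ / 2 := by positivity
  have hτ0 : 0 < τ := Real.rpow_pos_of_pos hκ2 _
  set q' : ℝ := q / (q - 1) with hq'
  have hconj : q.HolderConjugate q' := Real.HolderConjugate.conjExponent hq1
  have hq'1 : 1 ≤ q' := by rw [hq', le_div_iff₀ (by linarith)]; linarith
  have hq'2 : q' ≤ 2 := by rw [hq', div_le_iff₀ (by linarith)]; linarith
  have hqq : (q - 1) * q' = q := by
    rw [hq']; exact mul_div_cancel₀ _ (by linarith)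
  let β : α → ℝ := fun s => τ * σ s ^ (q - 1)
  have hβ0 : ∀ s, 0 ≤ β s := fun s => mul_nonneg hτ0.le (Real.rpow_nonneg (hσ0 s) _)
  have hβσ : ∀ s, β s * σ s = τ * σ s ^ q := by
    intro s
    simp only [β]
    rw [mul_assoc]
    congr 1
    rcases (hσ0 s).eq_or_lt with h0 | h0
    · rw [← h0, mul_zero, Real.zero_rpow hq0.ne']
    · rw [← Real.rpow_add_one h0.ne']
      congr 1
      ring
  have hβq : ∀ s, β s ^ q' = τ ^ q' * σ s ^ q := by
    intro s
    simp only [β]
    rw [Real.mul_rpow hτ0.le (Real.rpow_nonneg (hσ0 s) _), ← Real.rpow_mul (hσ0 s), hqq]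
  have hτq : τ ^ q' = κ / 2 * τ := by
    rw [hτ, ← Real.rpow_mul hκ2.le, hqq]
    rw [mul_comm (κ / 2), ← Real.rpow_add_one hκ2.ne']
    congr 1
    ring
  have hτκ : κ / 2 * τ = (κ / 2) ^ q := by
    rw [hτ, mul_comm (κ / 2), ← Real.rpow_add_one hκ2.ne']
    congr 1
    ring
  let hε : (α → Bool) → X → ℝ := fun ε x => ∑ s, sg (ε s) * (β s * h (R s) x)
  have hεm : ∀ ε, AEStronglyMeasurable (hε ε) μ := by
    intro ε
    have : hε ε = ∑ s, fun x => sg (ε s) * (β s * h (R s) x) := by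
      funext x; simp [hε]
    rw [this]
    exact Finset.aestronglyMeasurable_sum _ fun s _ => ((hhm _).const_mul _).const_mul _
  have hεb : ∀ ε x, |hε ε x| ≤ ∑ s, β s := by
    intro ε x
    refine (Finset.abs_sum_le_sum_abs _ _).trans (Finset.sum_le_sum fun s _ => ?_)
    rw [abs_mul, abs_mul]
    have h1 : |sg (ε s)| = 1 := by cases ε s <;> simp [sg]
    rw [h1, one_mul, abs_of_nonneg (hβ0 s)]
    exact mul_le_of_le_one_right (hβ0 s) (hh _ _)
  have hgi : ∀ a, Integrable (gerr φ ψ L a) μ := fun a => (memLp_gerr φ ψ L hφ hψ a).integrable hone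
  -- the average of the pairings
  have hpair : ∑ ε : α → Bool, ∫ x, gerr φ ψ L (aε ε) x * hε ε x ∂μ =
      2 ^ Fintype.card α * (κ / N * ∑ s, β s * σ s) := by
    have h1 : ∀ ε : α → Bool, ∫ x, gerr φ ψ L (aε ε) x * hε ε x ∂μ =
        ∑ s, ∑ s', sg (ε s) * sg (ε s') * (β s' * ∫ x, gerr φ ψ L (u s) x * h (R s') x ∂μ) := by
      intro ε
      have h2 : ∀ x, gerr φ ψ L (aε ε) x * hε ε x =
          ∑ s, ∑ s', sg (ε s) * sg (ε s') * (β s' * (gerr φ ψ L (u s) x * h (R s') x)) := by
        intro x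
        simp only [aε, hε]
        rw [gerr_sum, Finset.sum_mul_sum]
        refine Finset.sum_congr rfl fun s _ => Finset.sum_congr rfl fun s' _ => ?_
        ring
      simp only [h2]
      have hi : ∀ s s', Integrable (fun x => gerr φ ψ L (u s) x * h (R s') x) μ := by
        intro s s'
        refine (hgi (u s)).mul_bdd (c := 1) (hhm _) ?_
        filter_upwards with x
        simpa using hh _ x
      rw [integral_finsetSum]
      · refine Finset.sum_congr rfl fun s _ => ?_
        rw [integral_finsetSum]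
        · refine Finset.sum_congr rfl fun s' _ => ?_
          rw [integral_const_mul, integral_const_mul]
        · intro s' _
          exact ((hi s s').const_mul _).const_mul _
      · intro s _
        exact integrable_finsetSum _ fun s' _ => ((hi s s').const_mul _).const_mul _
    simp only [h1]
    rw [sum_bilin]
    congr 1
    rw [Finset.mul_sum]
    refine Finset.sum_congr rfl fun s _ => ?_
    rw [pairing μ N φ h ψ L hκ hN hφi hhm hh horth hψi (u s) (R s)]
    have h3 : ∑ i', Tmat μ N h ψ L κ (R s) i' * u s i' = σ s := sum_T_uvec T (R s) s.1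
    rw [h3]
    ring
  -- Young's inequality
  have hyoung : ∀ ε : α → Bool, ∫ x, gerr φ ψ L (aε ε) x * hε ε x ∂μ ≤
      (∫ x, |gerr φ ψ L (aε ε) x| ^ q ∂μ) / q + (∫ x, |hε ε x| ^ q' ∂μ) / q' := by
    intro ε
    have i1 : Integrable (fun x => |gerr φ ψ L (aε ε) x| ^ q) μ := by
      have := (memLp_gerr φ ψ L hφ hψ (aε ε)).integrable_norm_rpow
        (by simpa using hq0) ENNReal.ofReal_ne_top
      rw [ENNReal.toReal_ofReal hq0.le] at this
      simpa [Real.norm_eq_abs] using this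
    have i2 : Integrable (fun x => |hε ε x| ^ q') μ := by
      refine Integrable.of_bound (C := (∑ s, β s) ^ q') ?_ ?_
      · have h1 : Continuous fun y : ℝ => |y| ^ q' :=
          continuous_abs.rpow_const fun _ => Or.inr (by linarith)
        exact h1.comp_aestronglyMeasurable (hεm ε)
      · filter_upwards with x
        rw [Real.norm_of_nonneg (Real.rpow_nonneg (abs_nonneg _) _)]
        exact Real.rpow_le_rpow (abs_nonneg _) (hεb ε x) (by linarith)
    rw [← integral_div, ← integral_div, ← integral_add (i1.div_const _) (i2.div_const _)]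
    refine integral_mono ?_ ((i1.div_const _).add (i2.div_const _)) ?_
    · refine (hgi (aε ε)).mul_bdd (c := ∑ s, β s) (hεm ε) ?_
      filter_upwards with x
      rw [Real.norm_eq_abs]
      exact hεb ε x
    · intro x
      exact Real.young_inequality _ _ hconj
  -- the average of the dual norms
  have hdual : ∑ ε : α → Bool, ∫ x, |hε ε x| ^ q' ∂μ ≤
      2 ^ Fintype.card α * (1 / N * ∑ s, β s ^ q') := by
    have i2 : ∀ ε, Integrable (fun x => |hε ε x| ^ q') μ := by
      intro ε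
      refine Integrable.of_bound (C := (∑ s, β s) ^ q') ?_ ?_
      · have h1 : Continuous fun y : ℝ => |y| ^ q' :=
          continuous_abs.rpow_const fun _ => Or.inr (by linarith)
        exact h1.comp_aestronglyMeasurable (hεm ε)
      · filter_upwards with x
        rw [Real.norm_of_nonneg (Real.rpow_nonneg (abs_nonneg _) _)]
        exact Real.rpow_le_rpow (abs_nonneg _) (hεb ε x) (by linarith)
    have i3 : ∀ i, Integrable (fun x => |h i x|) μ := by
      intro i
      refine Integrable.of_bound (C := 1) (hhm i).norm ?_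
      filter_upwards with x
      simpa using hh i x
    rw [← integral_finsetSum _ fun ε _ => i2 ε]
    have h1 : ∀ x, ∑ ε : α → Bool, |hε ε x| ^ q' ≤
        2 ^ Fintype.card α * ∑ s, β s ^ q' * |h (R s) x| := by
      intro x
      refine (sum_rpow_le (fun s : α => β s * h (R s) x) hq'1 hq'2).trans ?_
      refine mul_le_mul_of_nonneg_left (Finset.sum_le_sum fun s _ => ?_) (by positivity)
      rw [abs_mul, abs_of_nonneg (hβ0 s), Real.mul_rpow (hβ0 s) (abs_nonneg _)]
      refine mul_le_mul_of_nonneg_left ?_ (Real.rpow_nonneg (hβ0 s) _)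
      calc |h (R s) x| ^ q' ≤ |h (R s) x| ^ (1 : ℝ) := by
            rcases (abs_nonneg (h (R s) x)).eq_or_lt with h0 | h0
            · rw [← h0, Real.zero_rpow (by linarith), Real.zero_rpow one_ne_zero]
            · exact Real.rpow_le_rpow_of_exponent_ge h0 (hh _ _) hq'1
        _ = _ := Real.rpow_one _
    refine (integral_mono (integrable_finsetSum _ fun ε _ => i2 ε) ?_ h1).trans ?_
    · exact (integrable_finsetSum _ fun s _ => (i3 _).const_mul _).const_mul _
    · rw [integral_const_mul, integral_finsetSum _ fun s _ => (i3 _).const_mul _]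
      refine mul_le_mul_of_nonneg_left ?_ (by positivity)
      rw [Finset.mul_sum]
      refine Finset.sum_le_sum fun s _ => ?_
      rw [integral_const_mul, mul_comm]
      exact mul_le_mul_of_nonneg_right (hh1 _) (Real.rpow_nonneg (hβ0 s) _)
  -- sum of the powers
  have hsum : cq q ^ q * (Fintype.card B / 2) ≤ ∑ s, σ s ^ q := by
    have h1 : ∀ s : α, cq q ^ q * (s.1.card : ℝ) ≤ σ s ^ q := by
      intro s
      have h2 := Real.rpow_le_rpow (mul_nonneg (cq_pos q).le (by positivity)) (hσ s) hq0.le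
      rw [Real.mul_rpow (cq_pos q).le (by positivity), ← Real.rpow_mul (by positivity),
        one_div_mul_cancel hq0.ne', Real.rpow_one] at h2
      exact h2
    have h3 : (Fintype.card B : ℝ) ≤ 2 * ∑ s : α, (s.1.card : ℝ) := by
      have h4 : ∑ s : α, s.1.card = ∑ S ∈ F, S.card := Finset.sum_coe_sort F Finset.card
      have h5 : ((Fintype.card B : ℕ) : ℝ) ≤ ((2 * ∑ s : α, s.1.card : ℕ) : ℝ) := by
        rw [h4]; exact_mod_cast hbig
      push_cast at h5
      exact h5
    calc cq q ^ q * (Fintype.card B / 2) ≤ cq q ^ q * ∑ s : α, (s.1.card : ℝ) := by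
          refine mul_le_mul_of_nonneg_left (by linarith) (Real.rpow_nonneg (cq_pos q).le _)
      _ = ∑ s : α, cq q ^ q * (s.1.card : ℝ) := by rw [Finset.mul_sum]
      _ ≤ _ := Finset.sum_le_sum fun s _ => h1 s
  have hNpos : (0 : ℝ) < N := by exact_mod_cast hN
  -- final comparison
  have hmain : 2 ^ Fintype.card α * (κ / N * ∑ s, β s * σ s) ≤
      (∑ ε : α → Bool, ∫ x, |gerr φ ψ L (aε ε) x| ^ q ∂μ) / q +
      (2 ^ Fintype.card α * (1 / N * ∑ s, β s ^ q')) / q' := by
    rw [← hpair]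
    refine (Finset.sum_le_sum fun ε _ => hyoung ε).trans ?_
    rw [Finset.sum_add_distrib, ← Finset.sum_div, ← Finset.sum_div]
    gcongr
  have hsumlt : ∑ ε : α → Bool, ∫ x, |gerr φ ψ L (aε ε) x| ^ q ∂μ <
      2 ^ Fintype.card α * (q * (κ / 2) ^ q * cq q ^ q / 2 * (Fintype.card B / N)) := by
    have h1 := Finset.sum_lt_sum_of_nonempty (s := (Finset.univ : Finset (α → Bool)))
      Finset.univ_nonempty (fun ε _ => hlt ε)
    rw [Finset.sum_const, nsmul_eq_mul] at h1
    have h2 : (Finset.univ : Finset (α → Bool)).card = 2 ^ Fintype.card α := by simp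
    rw [h2] at h1
    push_cast at h1
    exact h1
  simp only [hβσ, hβq, ← Finset.mul_sum] at hmain
  set M : ℝ := 2 ^ Fintype.card α with hM
  have hMpos : 0 < M := by positivity
  set Sq : ℝ := ∑ s, σ s ^ q with hSqdef
  have hS0 : 0 ≤ Sq := Finset.sum_nonneg fun s _ => Real.rpow_nonneg (hσ0 s) _
  rw [hτq] at hmain
  have h1 : M * (1 / N * (κ / 2 * τ * Sq)) / q' ≤ M * (1 / N * (κ / 2 * τ * Sq)) := by
    apply div_le_self _ hq'1
    positivity
  have h2 : M * (κ / N * (τ * Sq)) - M * (1 / N * (κ / 2 * τ * Sq)) =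
      M / N * ((κ / 2 * τ) * Sq) := by ring
  have h3 : (∑ ε : α → Bool, ∫ x, |gerr φ ψ L (aε ε) x| ^ q ∂μ) / q <
      M / N * ((κ / 2) ^ q * (cq q ^ q * (Fintype.card B / 2))) := by
    rw [div_lt_iff₀ hq0]
    refine hsumlt.trans_le (le_of_eq ?_)
    ring
  have h4 : M / N * ((κ / 2) ^ q * (cq q ^ q * (Fintype.card B / 2))) ≤
      M / N * ((κ / 2 * τ) * Sq) := by
    rw [hτκ]
    refine mul_le_mul_of_nonneg_left ?_ (by positivity)
    exact mul_le_mul_of_nonneg_left hsum (by positivity)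
  linarith

end Pool.Agent.MP_bc5265
end
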