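import Mathlib

/-!
# Sampling numbers of mixed Hölder-Nikol'skii classes: definitions

`𝕜` is `ℝ` or `ℂ`.
-/

open MeasureTheory
open scoped ENNReal fwdDiff

namespace Pool.Agent.MP_bc5265

noncomputable section

/-- `0 < 2 π`, needed for the measure on the circle. -/
instance instFactTwoPi : Fact (0 < 2 * Real.pi) := ⟨Real.two_pi_pos⟩

/-- The circle `ℝ / 2πℤ = [0, 2π)`. -/
abbrev Circ : Type := AddCircle (2 * Real.pi)

/-- The torus `[0, 2π)^d`. -/
abbrev Torus (d : ℕ) : Type := Fin d → Circ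

/-- Normalised Lebesgue measure on the torus: the product of the normalised Lebesgue
(= Haar probability) measures of the circles. -/
def μT (d : ℕ) : Measure (Torus d) :=
  Measure.pi fun _ => (AddCircle.haarAddCircle : Measure Circ)

variable {𝕜 : Type} [RCLike 𝕜] {d : ℕ}

/-- The `l`-th forward difference with step `t` in the variable `x_j`; Mathlib's `fwdDiff h f` is
`x ↦ f (x + h) - f x`, here `h` is the vector with `j`-th entry `t` and the other entries `0`. -/
def diff (l : ℕ) (j : Fin d) (t : ℝ) (f : Torus d → 𝕜) : Torus d → 𝕜 :=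
  (fwdDiff (Pi.single j (t : Circ) : Torus d))^[l] f

/-- The mixed difference `∏_{j ∈ e} Δ^l_{t_j, j}`. -/
def mixedDiff (l : ℕ) (e : Finset (Fin d)) (t : Fin d → ℝ) (f : Torus d → 𝕜) : Torus d → 𝕜 :=
  (e.sort (· ≤ ·)).foldr (fun j g => diff l j (t j) g) f

variable (𝕜 d)

/-- The mixed Hölder-Nikol'skii class `H^r_p` (differences of order `l > r`), as a set of
continuous functions (for `r > 1/p` every element of the class is continuous). -/
def HClass (l : ℕ) (r : ℝ) (p : ℝ≥0∞) : Set C(Torus d, 𝕜) :=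
  {f | eLpNorm f p (μT d) ≤ 1 ∧
    ∀ e : Finset (Fin d), e.Nonempty → ∀ t : Fin d → ℝ,
      eLpNorm (mixedDiff l e t f) p (μT d) ≤ ENNReal.ofReal (∏ j ∈ e, |t j| ^ r)}

variable {𝕜 d}

/-- The sampling number `ϱ_m(F, L_q)`: best worst case error of the linear methods
`f ↦ ∑ f(x^i) ψ_i` using `m` point values, with `ψ_i` continuous. -/
def samplingNumber (m : ℕ) (F : Set C(Torus d, 𝕜)) (q : ℝ≥0∞) : ℝ≥0∞ :=
  ⨅ (x : Fin m → Torus d) (ψ : Fin m → C(Torus d, 𝕜)),
    ⨆ f ∈ F, eLpNorm (fun y => f y - ∑ i, f (x i) * ψ i y) q (μT d)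

/-- The same with arbitrary linear functionals on the continuous functions in place of the
point values, and `ψ_i ∈ L_q`. This is at most the linear width `λ_m(F, L_q)`. -/
def linearNumber (m : ℕ) (F : Set C(Torus d, 𝕜)) (q : ℝ≥0∞) : ℝ≥0∞ :=
  ⨅ (Λ : Fin m → (C(Torus d, 𝕜) →ₗ[𝕜] 𝕜)) (ψ : Fin m → Torus d → 𝕜)
    (_ : ∀ i, MemLp (ψ i) q (μT d)),
    ⨆ f ∈ F, eLpNorm (fun y => f y - ∑ i, Λ i f * ψ i y) q (μT d)

end

end Pool.Agent.MP_bc5265
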