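import Mathlib

/-!
The mother function: smooth, supported in `(1/8, 7/8)`, mean zero, positive on the left half
and negative on the right half.
-/

open MeasureTheory
open scoped fwdDiff ContDiff

namespace Pool.Agent.MP_bc5265

noncomputable section

/-- A smooth bump supported in `(1/8, 3/8)`. -/
def bmp : ContDiffBump (1 / 4 : ℝ) := ⟨1 / 16, 1 / 8, by norm_num, by norm_num⟩

lemma bmp_ne_zero {y : ℝ} (h : bmp y ≠ 0) : 1 / 8 < y ∧ y < 3 / 8 := by
  have h1 : y ∈ Function.support bmp := h
  rw [bmp.support_eq, Real.ball_eq_Ioo] at h1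
  have h2 : bmp.rOut = 1 / 8 := rfl
  rw [h2] at h1
  constructor <;> linarith [h1.1, h1.2]

/-- The mother function. -/
def mo (y : ℝ) : ℝ := bmp y - bmp (y - 1 / 2)

lemma mo_ne_zero {y : ℝ} (h : mo y ≠ 0) : 1 / 8 < y ∧ y < 7 / 8 := by
  by_cases h1 : bmp y = 0
  · have h2 : bmp (y - 1 / 2) ≠ 0 := by
      intro h2; exact h (by unfold mo; rw [h1, h2, sub_zero])
    have := bmp_ne_zero h2
    constructor <;> linarith [this.1, this.2]
  · have := bmp_ne_zero h1
    constructor <;> linarith [this.1, this.2]

lemma mo_abs_le (y : ℝ) : |mo y| ≤ 1 := by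
  unfold mo
  have h1 : 0 ≤ bmp y := bmp.nonneg
  have h2 : bmp y ≤ 1 := bmp.le_one
  have h3 : 0 ≤ bmp (y - 1 / 2) := bmp.nonneg
  have h4 : bmp (y - 1 / 2) ≤ 1 := bmp.le_one
  rw [abs_le]
  constructor <;> linarith

lemma contDiff_mo : ContDiff ℝ ∞ mo := by
  unfold mo
  exact bmp.contDiff.sub (bmp.contDiff.comp (contDiff_id.sub contDiff_const))

lemma continuous_mo : Continuous mo := contDiff_mo.continuous

lemma hasCompactSupport_mo : HasCompactSupport mo := by
  refine HasCompactSupport.intro (K := Set.Icc 0 1) isCompact_Icc ?_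
  intro x hx
  by_contra h
  have := mo_ne_zero h
  exact hx ⟨by linarith [this.1], by linarith [this.2]⟩

/-- Its integral against the Haar function, up to a factor 2. -/
def c0 : ℝ := ∫ y, bmp y

lemma c0_pos : 0 < c0 := bmp.integral_pos

lemma integrable_bmp : Integrable (fun y => bmp y) := bmp.integrable

lemma integral_mo : ∫ y, mo y = 0 := by
  unfold mo
  rw [integral_sub integrable_bmp (integrable_bmp.comp_sub_right (1 / 2))]
  rw [integral_sub_right_eq_self (fun y => bmp y) (1 / 2)]
  simp

lemma mo_mul_haar (y : ℝ) : mo y * (if y < 1 / 2 then 1 else -1) = bmp y + bmp (y - 1 / 2) := by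
  unfold mo
  split_ifs with h
  · have h1 : bmp (y - 1 / 2) = 0 := by
      by_contra h1
      have := (bmp_ne_zero h1).1
      linarith
    rw [h1]; ring
  · have h1 : bmp y = 0 := by
      by_contra h1
      have := (bmp_ne_zero h1).2
      linarith
    rw [h1]; ring

lemma integral_mo_haar : ∫ y, mo y * (if y < 1 / 2 then 1 else -1) = 2 * c0 := by
  simp only [mo_mul_haar]
  rw [integral_add integrable_bmp (integrable_bmp.comp_sub_right (1 / 2))]
  rw [integral_sub_right_eq_self (fun y => bmp y) (1 / 2)]
  unfold c0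
  ring

/-- Differences are bounded by derivatives. -/
lemma abs_fwdDiff_iter_le (l : ℕ) : ∀ g : ℝ → ℝ, ContDiff ℝ ∞ g → ∀ M : ℝ,
    (∀ y, |iteratedDeriv l g y| ≤ M) → ∀ t y, |((fwdDiff t)^[l] g) y| ≤ M * |t| ^ l := by
  induction l with
  | zero =>
    intro g _ M hM t y
    simpa using hM y
  | succ l ih =>
    intro g hg M hM t y
    rw [Function.iterate_succ_apply]
    have h1 : ContDiff ℝ ∞ (fwdDiff t g) := by
      have h2 : fwdDiff t g = fun y => g (y + t) - g y := rfl
      rw [h2]
      exact (hg.comp (contDiff_id.add contDiff_const)).sub hg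
    have hgl : ContDiff ℝ (l : ℕ∞) g := hg.of_le (by exact_mod_cast le_top)
    have h3 : ∀ y, |iteratedDeriv l (fwdDiff t g) y| ≤ M * |t| := by
      intro y
      have h4 : fwdDiff t g = fun y => g (y + t) - g y := rfl
      have h5 : iteratedDeriv l (fwdDiff t g) y =
          iteratedDeriv l g (y + t) - iteratedDeriv l g y := by
        rw [h4, iteratedDeriv_fun_sub]
        · rw [iteratedDeriv_comp_add_const]
        · exact (hgl.comp (contDiff_id.add contDiff_const)).contDiffAt
        · exact hgl.contDiffAt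
      rw [h5]
      have h6 : ∀ z, HasDerivAt (iteratedDeriv l g) (iteratedDeriv (l + 1) g z) z := by
        intro z
        rw [iteratedDeriv_succ]
        have h7 : Differentiable ℝ (iteratedDeriv l g) :=
          hg.differentiable_iteratedDeriv l (by exact_mod_cast WithTop.coe_lt_top _)
        exact (h7 z).hasDerivAt
      have h8 := (convex_univ : Convex ℝ (Set.univ : Set ℝ)).norm_image_sub_le_of_norm_hasDerivWithin_le
        (f := iteratedDeriv l g) (f' := iteratedDeriv (l + 1) g) (C := M)
        (fun z _ => (h6 z).hasDerivWithinAt) (fun z _ => by simpa using hM z)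
        (Set.mem_univ y) (Set.mem_univ (y + t))
      simpa [Real.norm_eq_abs] using h8
    have h9 := ih (fwdDiff t g) h1 (M * |t|) h3 t y
    refine h9.trans (le_of_eq ?_)
    ring

lemma exists_bound_iteratedDeriv (l : ℕ) : ∃ M, ∀ y, |iteratedDeriv l mo y| ≤ M := by
  have h1 : Continuous (iteratedDeriv l mo) :=
    contDiff_mo.continuous_iteratedDeriv l (by exact_mod_cast le_top)
  have h2 : HasCompactSupport (iteratedDeriv l mo) := by
    clear h1
    induction l with
    | zero => simpa using hasCompactSupport_mo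
    | succ l ih =>
      rw [iteratedDeriv_succ]
      exact ih.deriv
  obtain ⟨C, hC⟩ := h2.exists_bound_of_continuous h1
  exact ⟨C, fun y => by simpa using hC y⟩

/-- Differences of the mother function. -/
lemma exists_bound_diff (l : ℕ) : ∃ M : ℝ, 0 ≤ M ∧
    ∀ t y, |((fwdDiff t)^[l] mo) y| ≤ M * |t| ^ l := by
  obtain ⟨M, hM⟩ := exists_bound_iteratedDeriv l
  refine ⟨M, (abs_nonneg _).trans (hM 0), ?_⟩
  exact abs_fwdDiff_iter_le l mo contDiff_mo M hM

end

end Pool.Agent.MP_bc5265
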