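import Mathlib
import Pool.Agent.Lib.MP_bc5265_an.Defs
import Pool.Agent.Lib.MP_bc5265_an.Mother

/-!
Functions on the circle: dyadic intervals, smooth bumps, Haar functions.
-/

open MeasureTheory
open scoped fwdDiff

namespace Pool.Agent.MP_bc5265

noncomputable section

/-- Normalised Lebesgue measure on the circle. -/
abbrev ν : Measure Circ := AddCircle.haarAddCircle

lemma periodic_fract : Function.Periodic (fun y : ℝ => Int.fract (y / (2 * Real.pi)))
    (2 * Real.pi) := by
  intro y
  have h : (y + 2 * Real.pi) / (2 * Real.pi) = y / (2 * Real.pi) + 1 := by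
    field_simp
  show Int.fract ((y + 2 * Real.pi) / (2 * Real.pi)) = _
  rw [h]
  simp

/-- Coordinate in `[0,1)` on the circle. -/
def uc : Circ → ℝ := periodic_fract.lift

lemma uc_coe (y : ℝ) : uc (y : Circ) = Int.fract (y / (2 * Real.pi)) := rfl

lemma uc_nonneg (x : Circ) : 0 ≤ uc x := by
  induction x using QuotientAddGroup.induction_on with
  | H y => exact Int.fract_nonneg _

lemma uc_lt_one (x : Circ) : uc x < 1 := by
  induction x using QuotientAddGroup.induction_on with
  | H y => exact Int.fract_lt_one _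

lemma measurable_uc : Measurable uc := by
  have h : Measurable (fun y : ℝ => Int.fract (y / (2 * Real.pi))) :=
    measurable_fract.comp (measurable_id.div_const _)
  exact measurable_from_quotient.2 h

lemma integral_comp_uc (G : ℝ → ℝ) : ∫ x, G (uc x) ∂ν = ∫ y in (0 : ℝ)..1, G y := by
  have hT : (0 : ℝ) < 2 * Real.pi := Real.two_pi_pos
  rw [AddCircle.integral_haarAddCircle, ← AddCircle.intervalIntegral_preimage (2 * Real.pi) 0,
    zero_add]
  have h1 : ∫ y in (0 : ℝ)..(2 * Real.pi), G (uc (y : Circ)) =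
      ∫ y in (0 : ℝ)..(2 * Real.pi), G (y / (2 * Real.pi)) := by
    refine intervalIntegral.integral_congr_ae ?_
    have h2 : ∀ᵐ y : ℝ, y ≠ 2 * Real.pi := by
      have := (Set.countable_singleton (2 * Real.pi)).ae_notMem (volume : Measure ℝ)
      filter_upwards [this] with y hy using hy
    filter_upwards [h2] with y hy hmem
    rw [Set.uIoc_of_le hT.le] at hmem
    rw [uc_coe]
    congr 1
    rw [Int.fract_eq_self]
    constructor
    · exact div_nonneg hmem.1.le hT.le
    · rw [div_lt_one hT]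
      exact lt_of_le_of_ne hmem.2 hy
  rw [h1, intervalIntegral.integral_comp_div _ hT.ne', zero_div, div_self hT.ne',
    smul_smul, inv_mul_cancel₀ hT.ne', one_smul]

/-- Index of the dyadic interval of level `a`. -/
def E (a : ℕ) (x : Circ) : ℕ := ⌊(2 : ℝ) ^ a * uc x⌋₊

lemma E_lt (a : ℕ) (x : Circ) : E a x < 2 ^ a := by
  have h1 : (0 : ℝ) < 2 ^ a := by positivity
  have h2 : (2 : ℝ) ^ a * uc x < 2 ^ a := by
    have := uc_lt_one x
    nlinarith
  have h3 : 0 ≤ (2 : ℝ) ^ a * uc x := mul_nonneg h1.le (uc_nonneg x)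
  unfold E
  rw [Nat.floor_lt h3]
  push_cast
  exact h2

lemma E_eq_iff (a κ : ℕ) (x : Circ) :
    E a x = κ ↔ 0 ≤ (2 : ℝ) ^ a * uc x - κ ∧ (2 : ℝ) ^ a * uc x - κ < 1 := by
  have h1 : (0 : ℝ) ≤ 2 ^ a * uc x := mul_nonneg (by positivity) (uc_nonneg x)
  unfold E
  rw [Nat.floor_eq_iff h1]
  constructor <;> rintro ⟨h2, h3⟩ <;> constructor <;> linarith

lemma E_div (a b : ℕ) (x : Circ) : E (a + b) x / 2 ^ b = E a x := by
  unfold E
  have h := Nat.floor_div_natCast ((2 : ℝ) ^ (a + b) * uc x) (2 ^ b)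
  rw [← h]
  congr 1
  push_cast
  have : (0 : ℝ) < 2 ^ b := by positivity
  rw [pow_add]
  field_simp

lemma measurable_E (a : ℕ) : Measurable (E a) :=
  Nat.measurable_floor.comp (measurable_uc.const_mul _)

/-- Integrals of functions living on one dyadic interval. -/
lemma integral_box (g : ℝ → ℝ) (hg : ∀ w, g w ≠ 0 → 0 ≤ w ∧ w < 1) (a κ : ℕ) (hκ : κ < 2 ^ a) :
    ∫ x, g ((2 : ℝ) ^ a * uc x - κ) ∂ν = (1 / 2 ^ a) * ∫ w, g w := by
  rw [integral_comp_uc (fun y => g ((2 : ℝ) ^ a * y - κ))]
  have h2 : (0 : ℝ) < 2 ^ a := by positivity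
  rw [intervalIntegral.integral_comp_mul_sub _ h2.ne']
  have h3 : ∫ w in ((2 : ℝ) ^ a * 0 - κ)..((2 : ℝ) ^ a * 1 - κ), g w = ∫ w, g w := by
    have hκ' : (κ : ℝ) + 1 ≤ 2 ^ a := by exact_mod_cast hκ
    have h4 : ((2 : ℝ) ^ a * 0 - κ) ≤ ((2 : ℝ) ^ a * 1 - κ) := by linarith
    rw [intervalIntegral.integral_of_le h4]
    rw [← integral_Icc_eq_integral_Ioc]
    refine setIntegral_eq_integral_of_forall_compl_eq_zero ?_
    intro w hw
    by_contra h5
    have h6 := hg w h5
    apply hw
    have h7 : (0 : ℝ) ≤ κ := by positivity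
    constructor <;> linarith [h6.1, h6.2]
  rw [h3, smul_eq_mul, one_div]

/-- Indicator function of a dyadic interval. -/
def chi (a κ : ℕ) (x : Circ) : ℝ := if E a x = κ then 1 else 0

lemma chi_nonneg (a κ : ℕ) (x : Circ) : 0 ≤ chi a κ x := by
  unfold chi; split_ifs <;> norm_num

lemma chi_le_one (a κ : ℕ) (x : Circ) : chi a κ x ≤ 1 := by
  unfold chi; split_ifs <;> norm_num

lemma measurable_chi (a κ : ℕ) : Measurable (chi a κ) := by
  unfold chi
  exact Measurable.ite (measurable_E a (measurableSet_singleton κ)) measurable_const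
    measurable_const

lemma integral_chi (a κ : ℕ) (hκ : κ < 2 ^ a) : ∫ x, chi a κ x ∂ν = 1 / 2 ^ a := by
  have h1 : ∀ x, chi a κ x = Set.indicator (Set.Ico (0 : ℝ) 1) (fun _ => (1 : ℝ))
      ((2 : ℝ) ^ a * uc x - κ) := by
    intro x
    unfold chi
    rw [Set.indicator_apply]
    congr 1
    rw [E_eq_iff]
    rfl
  simp only [h1]
  rw [integral_box _ _ a κ hκ]
  · rw [integral_indicator measurableSet_Ico]
    simp
  · intro w hw
    by_contra h
    apply hw
    rw [Set.indicator_of_notMem]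
    exact h

/-- Haar function of level `a`. -/
def Ha (a κ : ℕ) (x : Circ) : ℝ :=
  if E (a + 1) x = 2 * κ then 1 else if E (a + 1) x = 2 * κ + 1 then -1 else 0

lemma measurable_Ha (a κ : ℕ) : Measurable (Ha a κ) := by
  unfold Ha
  exact Measurable.ite (measurable_E (a + 1) (measurableSet_singleton _)) measurable_const
    (Measurable.ite (measurable_E (a + 1) (measurableSet_singleton _)) measurable_const
      measurable_const)

lemma abs_Ha (a κ : ℕ) (x : Circ) : |Ha a κ x| = chi a κ x := by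
  have h := E_div a 1 x
  unfold Ha chi
  rw [pow_one] at h
  by_cases h1 : E (a + 1) x = 2 * κ
  · have : E a x = κ := by omega
    simp [h1, this]
  · by_cases h2 : E (a + 1) x = 2 * κ + 1
    · have : E a x = κ := by omega
      simp [h2, this]
    · have : E a x ≠ κ := by omega
      simp [h1, h2, this]

lemma continuous_Ps_aux (a κ : ℕ) : Continuous fun x : Circ => mo ((2 : ℝ) ^ a * uc x - κ) := by
  have h1 : Continuous ((fun z : ℝ => mo ((2 : ℝ) ^ a * z - κ)) ∘ Int.fract) := by
    apply ContinuousOn.comp_fract''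
    · exact (continuous_mo.comp ((continuous_const.mul continuous_id).sub
        continuous_const)).continuousOn
    · have hint : ∀ z : ℤ, mo (z : ℝ) = 0 := by
        intro z
        by_contra h
        obtain ⟨h1, h2⟩ := mo_ne_zero h
        have h3 : (0 : ℝ) < z := by linarith
        have h4 : (z : ℝ) < 1 := by linarith
        have h5 : (0 : ℤ) < z := by exact_mod_cast h3
        have h6 : z < (1 : ℤ) := by exact_mod_cast h4
        omega
      have e1 : (2 : ℝ) ^ a * 0 - κ = ((-(κ : ℤ) : ℤ) : ℝ) := by push_cast; ring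
      have e2 : (2 : ℝ) ^ a * 1 - κ = (((2 : ℤ) ^ a - (κ : ℤ) : ℤ) : ℝ) := by push_cast; ring
      rw [e1, e2, hint, hint]
  have h2 : Continuous (fun y : ℝ => mo ((2 : ℝ) ^ a * Int.fract (y / (2 * Real.pi)) - κ)) :=
    h1.comp (continuous_id.div_const _)
  exact (QuotientAddGroup.isQuotientMap_mk (AddSubgroup.zmultiples (2 * Real.pi))).continuous_iff.2 h2

/-- Smooth bump on the dyadic interval. -/
def Ps (a κ : ℕ) : C(Circ, ℝ) := ⟨fun x => mo ((2 : ℝ) ^ a * uc x - κ), continuous_Ps_aux a κ⟩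

lemma Ps_apply (a κ : ℕ) (x : Circ) : Ps a κ x = mo ((2 : ℝ) ^ a * uc x - κ) := rfl

lemma E_of_Ps_ne {a κ : ℕ} {x : Circ} (h : Ps a κ x ≠ 0) : E a x = κ := by
  rw [E_eq_iff]
  rw [Ps_apply] at h
  obtain ⟨h1, h2⟩ := mo_ne_zero h
  constructor <;> linarith

lemma abs_Ps_le (a κ : ℕ) (x : Circ) : |Ps a κ x| ≤ chi a κ x := by
  by_cases h : Ps a κ x = 0
  · rw [h, abs_zero]; exact chi_nonneg _ _ _
  · rw [chi, if_pos (E_of_Ps_ne h)]
    exact mo_abs_le _

lemma abs_Ps_le_one (a κ : ℕ) (x : Circ) : |Ps a κ x| ≤ 1 := mo_abs_le _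

lemma mo_supp (w : ℝ) (h : mo w ≠ 0) : 0 ≤ w ∧ w < 1 := by
  obtain ⟨h1, h2⟩ := mo_ne_zero h
  constructor <;> linarith

/-- Orthogonality on the same level. -/
lemma integral_Ps_Ha_same (a κ κ' : ℕ) (hκ' : κ' < 2 ^ a) :
    ∫ x, Ps a κ' x * Ha a κ x ∂ν = if κ = κ' then 2 * c0 / 2 ^ a else 0 := by
  split_ifs with h
  · subst h
    have h1 : ∀ x, Ps a κ x * Ha a κ x =
        (fun w : ℝ => mo w * (if w < 1 / 2 then 1 else -1)) ((2 : ℝ) ^ a * uc x - κ) := by
      intro x
      simp only [Ps_apply]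
      by_cases h2 : mo ((2 : ℝ) ^ a * uc x - κ) = 0
      · rw [h2]; simp
      · congr 1
        obtain ⟨h3, h4⟩ := mo_ne_zero h2
        unfold Ha
        by_cases h5 : (2 : ℝ) ^ a * uc x - κ < 1 / 2
        · have h6 : E (a + 1) x = 2 * κ := by
            rw [E_eq_iff]
            push_cast
            rw [pow_succ]
            constructor <;> linarith
          rw [if_pos h6, if_pos h5]
        · have h6 : E (a + 1) x = 2 * κ + 1 := by
            rw [E_eq_iff]
            push_cast
            rw [pow_succ]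
            push Not at h5
            constructor <;> linarith
          have h7 : E (a + 1) x ≠ 2 * κ := by omega
          rw [if_neg h7, if_pos h6, if_neg h5]
    simp only [h1]
    rw [integral_box (fun w : ℝ => mo w * (if w < 1 / 2 then 1 else -1)) ?_ a κ hκ',
      integral_mo_haar]
    · ring
    · intro w hw
      exact mo_supp w (left_ne_zero_of_mul hw)
  · have h1 : ∀ x, Ps a κ' x * Ha a κ x = 0 := by
      intro x
      by_cases h2 : Ps a κ' x = 0
      · rw [h2, zero_mul]
      · have h3 := E_of_Ps_ne h2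
        have h4 : Ha a κ x = 0 := by
          rw [← abs_eq_zero, abs_Ha, chi, if_neg]
          omega
        rw [h4, mul_zero]
    simp [h1]

/-- Orthogonality when the bump is finer. -/
lemma integral_Ps_Ha_fine (a a' κ κ' : ℕ) (haa : a < a') (hκ' : κ' < 2 ^ a') :
    ∫ x, Ps a' κ' x * Ha a κ x ∂ν = 0 := by
  obtain ⟨b, rfl⟩ : ∃ b, a' = a + 1 + b := ⟨a' - (a + 1), by omega⟩
  have h1 : ∀ x, Ps (a + 1 + b) κ' x * Ha a κ x =
      (if κ' / 2 ^ b = 2 * κ then 1 else if κ' / 2 ^ b = 2 * κ + 1 then -1 else 0) *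
        mo ((2 : ℝ) ^ (a + 1 + b) * uc x - κ') := by
    intro x
    by_cases h2 : Ps (a + 1 + b) κ' x = 0
    · rw [h2, ← Ps_apply, h2]; ring
    · have h3 := E_of_Ps_ne h2
      have h4 := E_div (a + 1) b x
      rw [h3] at h4
      rw [Ps_apply, Ha, h4]
      ring
  simp only [h1]
  rw [integral_const_mul, integral_box mo mo_supp _ _ hκ', integral_mo]
  ring

/-! ### Differences -/

lemma fwd_coe (l : ℕ) : ∀ (f : Circ → ℝ) (t y : ℝ),
    ((fwdDiff (t : Circ))^[l] f) (y : Circ) = ((fwdDiff t)^[l] (fun w : ℝ => f (w : Circ))) y := by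
  induction l with
  | zero => intro f t y; rfl
  | succ l ih =>
    intro f t y
    rw [Function.iterate_succ_apply, Function.iterate_succ_apply, ih]
    rfl

lemma abs_fwd_le {G : Type*} [AddCommGroup G] (l : ℕ) : ∀ (f : G → ℝ) (C : ℝ),
    (∀ x, |f x| ≤ C) → ∀ t x, |((fwdDiff t)^[l] f) x| ≤ 2 ^ l * C := by
  induction l with
  | zero => intro f C hf t x; simpa using hf x
  | succ l ih =>
    intro f C hf t x
    rw [Function.iterate_succ_apply]
    have h1 : ∀ x, |fwdDiff t f x| ≤ 2 * C := by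
      intro x
      unfold fwdDiff
      have h2 := abs_sub (f (x + t)) (f x)
      linarith [hf (x + t), hf x]
    refine (ih _ _ h1 t x).trans (le_of_eq ?_)
    ring

lemma fwd_scale (l : ℕ) : ∀ (g : ℝ → ℝ) (c e t y : ℝ),
    ((fwdDiff t)^[l] (fun w => g (c * w - e))) y = ((fwdDiff (c * t))^[l] g) (c * y - e) := by
  induction l with
  | zero => intro g c e t y; rfl
  | succ l ih =>
    intro g c e t y
    rw [Function.iterate_succ_apply, Function.iterate_succ_apply]
    have h1 : fwdDiff t (fun w => g (c * w - e)) = fun w => (fwdDiff (c * t) g) (c * w - e) := by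
      funext w
      simp only [fwdDiff]
      congr 2
      ring
    rw [h1, ih]

/-- Three terms suffice. -/
lemma three_terms (a κ : ℕ) (hκ : κ < 2 ^ a) (z0 : ℤ) (w : ℝ)
    (h1 : z0 - 1 ≤ ⌊w / (2 * Real.pi)⌋) (h2 : ⌊w / (2 * Real.pi)⌋ ≤ z0 + 1) :
    Ps a κ (w : Circ) = ∑ z ∈ Finset.Icc (z0 - 1) (z0 + 1),
      mo ((2 : ℝ) ^ a / (2 * Real.pi) * w - (2 ^ a * z + κ)) := by
  rw [Finset.sum_eq_single ⌊w / (2 * Real.pi)⌋]
  · rw [Ps_apply, uc_coe]
    congr 1
    have h3 : Int.fract (w / (2 * Real.pi)) = w / (2 * Real.pi) - ⌊w / (2 * Real.pi)⌋ := rfl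
    rw [h3]
    ring
  · intro z _ hz
    by_contra h
    obtain ⟨h3, h4⟩ := mo_ne_zero h
    have h5 : (2 : ℝ) ^ a / (2 * Real.pi) * w - (2 ^ a * z + κ) =
        2 ^ a * (w / (2 * Real.pi) - z) - κ := by ring
    rw [h5] at h3 h4
    have h6 := Int.floor_le (w / (2 * Real.pi))
    have h7 := Int.lt_floor_add_one (w / (2 * Real.pi))
    have hpos : (0 : ℝ) < 2 ^ a := by positivity
    have hκ' : (κ : ℝ) + 1 ≤ 2 ^ a := by exact_mod_cast hκ
    rcases lt_or_gt_of_ne hz with hlt | hgt
    · have h8 : (z : ℝ) + 1 ≤ ⌊w / (2 * Real.pi)⌋ := by exact_mod_cast hlt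
      have h9 : 1 ≤ w / (2 * Real.pi) - z := by linarith
      have h10 : (2 : ℝ) ^ a * 1 ≤ 2 ^ a * (w / (2 * Real.pi) - z) :=
        mul_le_mul_of_nonneg_left h9 hpos.le
      linarith
    · have h8 : (⌊w / (2 * Real.pi)⌋ : ℝ) + 1 ≤ z := by exact_mod_cast hgt
      have h9 : w / (2 * Real.pi) - z < 0 := by linarith
      have h10 : (2 : ℝ) ^ a * (w / (2 * Real.pi) - z) < 0 := mul_neg_of_pos_of_neg hpos h9
      have : (0 : ℝ) ≤ κ := by positivity
      linarith
  · intro h
    exact absurd (Finset.mem_Icc.2 ⟨h1, h2⟩) h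

/-- The difference bound. -/
lemma exists_diff_bound (l : ℕ) : ∃ C : ℝ, 1 ≤ C ∧ ∀ (a κ : ℕ), κ < 2 ^ a → ∀ (t : ℝ) (x : Circ),
    |((fwdDiff (t : Circ))^[l] (Ps a κ)) x| ≤ C * (min 1 (2 ^ a * |t|)) ^ l *
      ∑ i ∈ Finset.range (l + 1), chi a κ (x + ((i * t : ℝ) : Circ)) := by
  obtain ⟨M, hM0, hM⟩ := exists_bound_diff l
  have hT : (1 : ℝ) ≤ 2 * Real.pi := by linarith [Real.pi_gt_three]
  have hTpos : (0 : ℝ) < 2 * Real.pi := by linarith
  set C : ℝ := 3 * M + (2 * l) ^ l + 2 ^ l with hC
  have hpl : (1 : ℝ) ≤ 2 ^ l := one_le_pow₀ (by norm_num)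
  have hll : (0 : ℝ) ≤ (2 * l) ^ l := by positivity
  refine ⟨C, by rw [hC]; nlinarith, ?_⟩
  intro a κ hκ t x
  have hsum0 : 0 ≤ ∑ i ∈ Finset.range (l + 1), chi a κ (x + ((i * t : ℝ) : Circ)) :=
    Finset.sum_nonneg fun i _ => chi_nonneg _ _ _
  have hformula : ((fwdDiff (t : Circ))^[l] (Ps a κ)) x =
      ∑ k ∈ Finset.range (l + 1), ((-1 : ℤ) ^ (l - k) * l.choose k) •
        Ps a κ (x + ((k * t : ℝ) : Circ)) := by
    rw [fwdDiff_iter_eq_sum_shift]
    refine Finset.sum_congr rfl fun k _ => ?_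
    congr 3
    rw [← AddCircle.coe_nsmul]
    congr 1
    simp
  by_cases hzero : ∀ i ∈ Finset.range (l + 1), E a (x + ((i * t : ℝ) : Circ)) ≠ κ
  · have h1 : ((fwdDiff (t : Circ))^[l] (Ps a κ)) x = 0 := by
      rw [hformula]
      refine Finset.sum_eq_zero fun k hk => ?_
      have h2 : Ps a κ (x + ((k * t : ℝ) : Circ)) = 0 := by
        by_contra h2
        exact hzero k hk (E_of_Ps_ne h2)
      rw [h2, smul_zero]
    rw [h1, abs_zero]
    have : 0 ≤ min 1 (2 ^ a * |t|) := le_min zero_le_one (by positivity)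
    positivity
  · push Not at hzero
    obtain ⟨i, hi, hEi⟩ := hzero
    have hsum1 : 1 ≤ ∑ i ∈ Finset.range (l + 1), chi a κ (x + ((i * t : ℝ) : Circ)) := by
      have h1 : chi a κ (x + ((i * t : ℝ) : Circ)) = 1 := by rw [chi, if_pos hEi]
      rw [← h1]
      exact Finset.single_le_sum (f := fun i : ℕ => chi a κ (x + ((i * t : ℝ) : Circ)))
        (fun j _ => chi_nonneg _ _ _) hi
    have hmain : |((fwdDiff (t : Circ))^[l] (Ps a κ)) x| ≤ C * (min 1 (2 ^ a * |t|)) ^ l := by
      have htriv : |((fwdDiff (t : Circ))^[l] (Ps a κ)) x| ≤ 2 ^ l := by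
        have := abs_fwd_le l (Ps a κ) 1 (abs_Ps_le_one a κ) (t : Circ) x
        simpa using this
      rcases le_total 1 (2 ^ a * |t|) with hbig | hsmall
      · rw [min_eq_left hbig, one_pow, mul_one]
        refine htriv.trans ?_
        rw [hC]
        nlinarith
      · rw [min_eq_right hsmall]
        induction x using QuotientAddGroup.induction_on with
        | H y =>
        have hcoe : ((fwdDiff (t : Circ))^[l] (Ps a κ)) ((y : ℝ) : Circ) =
            ((fwdDiff t)^[l] (fun w : ℝ => Ps a κ (w : Circ))) y := fwd_coe l _ t y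
        rcases le_or_gt ((l : ℝ) * |t|) (2 * Real.pi) with hle | hgt
        · have hkey : ((fwdDiff t)^[l] (fun w : ℝ => Ps a κ (w : Circ))) y =
              ∑ z ∈ Finset.Icc (⌊y / (2 * Real.pi)⌋ - 1) (⌊y / (2 * Real.pi)⌋ + 1),
                ((fwdDiff t)^[l] (fun w : ℝ =>
                  mo ((2 : ℝ) ^ a / (2 * Real.pi) * w - (2 ^ a * z + κ)))) y := by
            rw [fwdDiff_iter_eq_sum_shift]
            simp only [fwdDiff_iter_eq_sum_shift]
            rw [Finset.sum_comm]
            refine Finset.sum_congr rfl fun k hk => ?_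
            rw [← Finset.smul_sum]
            congr 1
            apply three_terms a κ hκ
            · have hk' : (k : ℝ) ≤ l := by
                have := Finset.mem_range.1 hk
                exact_mod_cast Nat.lt_succ_iff.1 this
              have h3 : -(2 * Real.pi) ≤ k * t := by
                have h4 : |(k : ℝ) * t| ≤ 2 * Real.pi := by
                  rw [abs_mul, Nat.abs_cast]
                  exact (mul_le_mul_of_nonneg_right hk' (abs_nonneg t)).trans hle
                exact (abs_le.1 h4).1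
              rw [Int.le_floor]
              push_cast
              rw [nsmul_eq_mul, le_div_iff₀ hTpos]
              have h5 := Int.floor_le (y / (2 * Real.pi))
              rw [le_div_iff₀ hTpos] at h5
              nlinarith
            · have hk' : (k : ℝ) ≤ l := by
                have := Finset.mem_range.1 hk
                exact_mod_cast Nat.lt_succ_iff.1 this
              have h3 : k * t ≤ (2 * Real.pi) := by
                have h4 : |(k : ℝ) * t| ≤ 2 * Real.pi := by
                  rw [abs_mul, Nat.abs_cast]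
                  exact (mul_le_mul_of_nonneg_right hk' (abs_nonneg t)).trans hle
                exact (abs_le.1 h4).2
              have h6 : ⌊(y + k • t) / (2 * Real.pi)⌋ < ⌊y / (2 * Real.pi)⌋ + 1 + 1 := by
                rw [Int.floor_lt]
                push_cast
                rw [nsmul_eq_mul, div_lt_iff₀ hTpos]
                have h5 := Int.lt_floor_add_one (y / (2 * Real.pi))
                rw [div_lt_iff₀ hTpos] at h5
                nlinarith
              omega
          show |((fwdDiff (t : Circ))^[l] (Ps a κ)) ((y : ℝ) : Circ)| ≤ _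
          rw [hcoe, hkey]
          have h7 : ∀ z ∈ Finset.Icc (⌊y / (2 * Real.pi)⌋ - 1) (⌊y / (2 * Real.pi)⌋ + 1),
              |((fwdDiff t)^[l] (fun w : ℝ =>
                  mo ((2 : ℝ) ^ a / (2 * Real.pi) * w - (2 ^ a * z + κ)))) y| ≤
                M * (2 ^ a * |t|) ^ l := by
            intro z _
            rw [fwd_scale]
            refine (hM _ _).trans ?_
            refine mul_le_mul_of_nonneg_left ?_ hM0
            refine pow_le_pow_left₀ (abs_nonneg _) ?_ l
            rw [abs_mul, abs_of_nonneg (by positivity : (0 : ℝ) ≤ 2 ^ a / (2 * Real.pi))]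
            refine mul_le_mul_of_nonneg_right ?_ (abs_nonneg t)
            exact div_le_self (by positivity) hT
          refine (Finset.abs_sum_le_sum_abs _ _).trans ((Finset.sum_le_sum h7).trans ?_)
          rw [Finset.sum_const, Int.card_Icc, nsmul_eq_mul]
          have h8 : (⌊y / (2 * Real.pi)⌋ + 1 + 1 - (⌊y / (2 * Real.pi)⌋ - 1)).toNat = 3 := by
            have : ⌊y / (2 * Real.pi)⌋ + 1 + 1 - (⌊y / (2 * Real.pi)⌋ - 1) = 3 := by ring
            rw [this]; rfl
          rw [h8]
          push_cast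
          rw [← mul_assoc]
          refine mul_le_mul_of_nonneg_right ?_ (by positivity)
          rw [hC]
          linarith
        · show |((fwdDiff (t : Circ))^[l] (Ps a κ)) ((y : ℝ) : Circ)| ≤ _
          refine htriv.trans ?_
          have h1 : 1 ≤ (l : ℝ) * |t| := by linarith
          have h2 : (1 : ℝ) ≤ ((l : ℝ) * |t|) ^ l := one_le_pow₀ h1
          have h3 : (1 : ℝ) ≤ 2 ^ a := one_le_pow₀ (by norm_num)
          calc (2 : ℝ) ^ l ≤ 2 ^ l * ((l : ℝ) * |t|) ^ l := le_mul_of_one_le_right (by positivity) h2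
            _ = (2 * l) ^ l * |t| ^ l := by rw [← mul_pow, ← mul_pow]; ring
            _ ≤ (2 * l) ^ l * (2 ^ a * |t|) ^ l := by
                refine mul_le_mul_of_nonneg_left ?_ hll
                refine pow_le_pow_left₀ (abs_nonneg _) ?_ l
                exact le_mul_of_one_le_left (abs_nonneg t) h3
            _ ≤ C * (2 ^ a * |t|) ^ l := by
                refine mul_le_mul_of_nonneg_right ?_ (by positivity)
                rw [hC]
                linarith
    calc |((fwdDiff (t : Circ))^[l] (Ps a κ)) x| ≤ C * (min 1 (2 ^ a * |t|)) ^ l := hmain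
      _ ≤ _ := by
        refine le_mul_of_one_le_right ?_ hsum1
        have h1 : 0 ≤ min 1 (2 ^ a * |t|) := le_min zero_le_one (by positivity)
        have h2 : 0 ≤ C := by rw [hC]; positivity
        positivity

end

end Pool.Agent.MP_bc5265
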