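import Mathlib
import Pool.Agent.Lib.MP_bc5265_an.Circle

/-!
Tensor products on the torus.
-/

set_option linter.unusedSectionVars false

open MeasureTheory Finset
open scoped fwdDiff

namespace Pool.Agent.MP_bc5265

noncomputable section

variable {d : ℕ}

instance : IsProbabilityMeasure (μT d) := by unfold μT; infer_instance

instance : Measure.IsAddLeftInvariant (μT d) := by unfold μT; infer_instance

/-- Tensor product of bumps. -/
def Phi (s k : Fin d → ℕ) : C(Torus d, ℝ) :=
  ⟨fun x => ∏ j, Ps (s j) (k j) (x j), by fun_prop⟩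

/-- Tensor product of Haar functions. -/
def Haf (s k : Fin d → ℕ) (x : Torus d) : ℝ := ∏ j, Ha (s j) (k j) (x j)

/-- Indicator function of a dyadic box. -/
def Chi (s k : Fin d → ℕ) (x : Torus d) : ℝ := ∏ j, chi (s j) (k j) (x j)

lemma Phi_apply (s k : Fin d → ℕ) (x : Torus d) : Phi s k x = ∏ j, Ps (s j) (k j) (x j) := rfl

lemma measurable_Haf (s k : Fin d → ℕ) : Measurable (Haf s k) := by
  unfold Haf
  exact Finset.measurable_prod _ fun j _ => (measurable_Ha _ _).comp (measurable_pi_apply j)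

lemma measurable_Chi (s k : Fin d → ℕ) : Measurable (Chi s k) := by
  unfold Chi
  exact Finset.measurable_prod _ fun j _ => (measurable_chi _ _).comp (measurable_pi_apply j)

lemma abs_Haf (s k : Fin d → ℕ) (x : Torus d) : |Haf s k x| = Chi s k x := by
  unfold Haf Chi
  rw [Finset.abs_prod]
  exact Finset.prod_congr rfl fun j _ => abs_Ha _ _ _

lemma Chi_nonneg (s k : Fin d → ℕ) (x : Torus d) : 0 ≤ Chi s k x :=
  Finset.prod_nonneg fun _ _ => chi_nonneg _ _ _

lemma Chi_le_one (s k : Fin d → ℕ) (x : Torus d) : Chi s k x ≤ 1 :=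
  Finset.prod_le_one (fun _ _ => chi_nonneg _ _ _) fun _ _ => chi_le_one _ _ _

lemma integral_Chi (s k : Fin d → ℕ) (hk : ∀ j, k j < 2 ^ s j) :
    ∫ x, Chi s k x ∂(μT d) = 1 / 2 ^ (∑ j, s j) := by
  unfold Chi μT
  rw [integral_fintype_prod_eq_prod (fun j (y : Circ) => chi (s j) (k j) y)]
  rw [← Finset.prod_pow_eq_pow_sum, one_div, ← Finset.prod_inv_distrib]
  refine Finset.prod_congr rfl fun j _ => ?_
  rw [← one_div]
  exact integral_chi _ _ (hk j)

lemma integral_Phi_Haf (s k s' k' : Fin d → ℕ) :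
    ∫ x, Phi s' k' x * Haf s k x ∂(μT d) =
      ∏ j, ∫ y, Ps (s' j) (k' j) y * Ha (s j) (k j) y ∂ν := by
  unfold μT
  simp only [Phi_apply, Haf, ← Finset.prod_mul_distrib]
  exact integral_fintype_prod_eq_prod (fun j (y : Circ) => Ps (s' j) (k' j) y * Ha (s j) (k j) y)

lemma integral_same (s k k' : Fin d → ℕ) (hk' : ∀ j, k' j < 2 ^ s j) :
    ∫ x, Phi s k' x * Haf s k x ∂(μT d) =
      if k = k' then (2 * c0) ^ d / 2 ^ (∑ j, s j) else 0 := by
  rw [integral_Phi_Haf]
  simp only [fun j => integral_Ps_Ha_same (s j) (k j) (k' j) (hk' j)]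
  split_ifs with h
  · subst h
    simp only [if_true]
    rw [Finset.prod_div_distrib, Finset.prod_const, Finset.prod_pow_eq_pow_sum]
    simp
  · have : ∃ j, k j ≠ k' j := by
      by_contra hcon
      push Not at hcon
      exact h (funext hcon)
    obtain ⟨j, hj⟩ := this
    exact Finset.prod_eq_zero (Finset.mem_univ j) (if_neg hj)

lemma integral_ne (s k s' k' : Fin d → ℕ) (hk' : ∀ j, k' j < 2 ^ s' j) (hne : s ≠ s')
    (hsum : ∑ j, s j = ∑ j, s' j) :
    ∫ x, Phi s' k' x * Haf s k x ∂(μT d) = 0 := by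
  rw [integral_Phi_Haf]
  have : ∃ j, s j < s' j := by
    by_contra hcon
    push Not at hcon
    apply hne
    have h1 : ∀ j ∈ (Finset.univ : Finset (Fin d)), s' j = s j := by
      rw [← Finset.sum_eq_sum_iff_of_le (fun j _ => hcon j)]
      exact hsum.symm
    funext j
    exact (h1 j (Finset.mem_univ j)).symm
  obtain ⟨j, hj⟩ := this
  exact Finset.prod_eq_zero (Finset.mem_univ j) (integral_Ps_Ha_fine _ _ _ _ hj (hk' j))

/-! ### Differences of tensor products -/

lemma fwd_prod (j : Fin d) (t : ℝ) (F : Fin d → Circ → ℝ) :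
    fwdDiff (Pi.single j (t : Circ) : Torus d) (fun x : Torus d => ∏ i, F i (x i)) =
      fun x => ∏ i, (Function.update F j (fwdDiff (t : Circ) (F j))) i (x i) := by
  funext x
  simp only [fwdDiff]
  rw [← Finset.mul_prod_erase Finset.univ _ (Finset.mem_univ j),
    ← Finset.mul_prod_erase Finset.univ (fun i => F i (x i)) (Finset.mem_univ j),
    ← Finset.mul_prod_erase Finset.univ
      (fun i => (Function.update F j (fwdDiff (t : Circ) (F j))) i (x i)) (Finset.mem_univ j)]
  have h1 : ∏ i ∈ Finset.univ.erase j, F i ((x + (Pi.single j (t : Circ) : Torus d)) i) =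
      ∏ i ∈ Finset.univ.erase j, F i (x i) := by
    refine Finset.prod_congr rfl fun i hi => ?_
    have : i ≠ j := (Finset.mem_erase.1 hi).1
    simp [this]
  have h2 : ∏ i ∈ Finset.univ.erase j, (Function.update F j (fwdDiff (t : Circ) (F j))) i (x i) =
      ∏ i ∈ Finset.univ.erase j, F i (x i) := by
    refine Finset.prod_congr rfl fun i hi => ?_
    have : i ≠ j := (Finset.mem_erase.1 hi).1
    simp [this]
  rw [h1, h2]
  simp only [Pi.add_apply, Pi.single_eq_same, Function.update_self, fwdDiff]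
  ring

lemma diff_prod (l : ℕ) (j : Fin d) (t : ℝ) : ∀ F : Fin d → Circ → ℝ,
    diff l j t (fun x : Torus d => ∏ i, F i (x i)) =
      fun x => ∏ i, (Function.update F j ((fwdDiff (t : Circ))^[l] (F j))) i (x i) := by
  unfold diff
  induction l with
  | zero =>
    intro F
    simp
  | succ l ih =>
    intro F
    rw [Function.iterate_succ_apply, fwd_prod, ih]
    simp only [Function.update_self, Function.update_idem, Function.iterate_succ_apply]

lemma foldr_prod (l : ℕ) (t : Fin d → ℝ) (F : Fin d → Circ → ℝ) :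
    ∀ L : List (Fin d), L.Nodup →
    L.foldr (fun j g => diff l j (t j) g) (fun x : Torus d => ∏ i, F i (x i)) =
      fun x => ∏ i, (if i ∈ L then (fwdDiff ((t i : ℝ) : Circ))^[l] (F i) else F i) (x i) := by
  intro L
  induction L with
  | nil => intro _; simp
  | cons j L ih =>
    intro hL
    rw [List.nodup_cons] at hL
    rw [List.foldr_cons, ih hL.2]
    rw [diff_prod l j (t j)
      (fun i => if i ∈ L then (fwdDiff ((t i : ℝ) : Circ))^[l] (F i) else F i)]
    funext x
    refine Finset.prod_congr rfl fun i _ => ?_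
    by_cases hij : i = j
    · subst hij
      simp [hL.1]
    · rw [Function.update_of_ne hij]
      simp [hij]

lemma mixedDiff_prod (l : ℕ) (e : Finset (Fin d)) (t : Fin d → ℝ) (F : Fin d → Circ → ℝ) :
    mixedDiff l e t (fun x : Torus d => ∏ i, F i (x i)) =
      fun x => ∏ i, (if i ∈ e then (fwdDiff ((t i : ℝ) : Circ))^[l] (F i) else F i) (x i) := by
  unfold mixedDiff
  rw [foldr_prod l t F _ (Finset.sort_nodup _ _)]
  simp only [Finset.mem_sort]

lemma diff_sum {𝕜 : Type} [RCLike 𝕜] (l : ℕ) (j : Fin d) (t : ℝ) {β : Type*} (S : Finset β)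
    (c : β → 𝕜) (f : β → Torus d → 𝕜) :
    diff l j t (∑ b ∈ S, c b • f b) = ∑ b ∈ S, c b • diff l j t (f b) := by
  unfold diff
  rw [fwdDiff_iter_finsetSum]
  refine Finset.sum_congr rfl fun b _ => ?_
  rw [fwdDiff_iter_const_smul]

lemma mixedDiff_sum {𝕜 : Type} [RCLike 𝕜] (l : ℕ) (e : Finset (Fin d)) (t : Fin d → ℝ)
    {β : Type*} (S : Finset β) (c : β → 𝕜) (f : β → Torus d → 𝕜) :
    mixedDiff l e t (∑ b ∈ S, c b • f b) = ∑ b ∈ S, c b • mixedDiff l e t (f b) := by
  unfold mixedDiff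
  induction e.sort (· ≤ ·) with
  | nil => rfl
  | cons j L ih => rw [List.foldr_cons, ih, diff_sum]; rfl

lemma diff_ofReal {𝕜 : Type} [RCLike 𝕜] (l : ℕ) (j : Fin d) (t : ℝ) : ∀ f : Torus d → ℝ,
    diff (𝕜 := 𝕜) l j t (fun x => (f x : 𝕜)) = fun x => ((diff l j t f x : ℝ) : 𝕜) := by
  unfold diff
  induction l with
  | zero => intro f; rfl
  | succ l ih =>
    intro f
    rw [Function.iterate_succ_apply, Function.iterate_succ_apply]
    have h1 : fwdDiff (Pi.single j (t : Circ) : Torus d) (fun x => (f x : 𝕜)) =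
        fun x => ((fwdDiff (Pi.single j (t : Circ) : Torus d) f x : ℝ) : 𝕜) := by
      funext x
      simp [fwdDiff]
    rw [h1, ih]

lemma mixedDiff_ofReal {𝕜 : Type} [RCLike 𝕜] (l : ℕ) (e : Finset (Fin d)) (t : Fin d → ℝ)
    (f : Torus d → ℝ) :
    mixedDiff (𝕜 := 𝕜) l e t (fun x => (f x : 𝕜)) =
      fun x => ((mixedDiff l e t f x : ℝ) : 𝕜) := by
  unfold mixedDiff
  induction e.sort (· ≤ ·) with
  | nil => rfl
  | cons j L ih => rw [List.foldr_cons, ih, diff_ofReal]; rfl

end

end Pool.Agent.MP_bc5265
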