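import Mathlib
import Pool.Agent.Lib.MP_bc5265_an.Tensor
import Pool.Agent.Lib.MP_bc5265_an.Abstract

section
/-!
Norms of mixed differences of one dyadic block.
-/
set_option linter.unusedSectionVars false

open MeasureTheory Finset
open scoped fwdDiff ENNReal

namespace Pool.Agent.MP_bc5265

noncomputable section

variable {d : ℕ}

/-- Index of the box of level `s` containing `x`. -/
def kap (s : Fin d → ℕ) (x : Torus d) : ∀ j, Fin (2 ^ s j) := fun j => ⟨E (s j) (x j), E_lt _ _⟩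

lemma Chi_eq (s : Fin d → ℕ) (k : ∀ j, Fin (2 ^ s j)) (x : Torus d) :
    Chi s (fun j => (k j : ℕ)) x = if kap s x = k then 1 else 0 := by
  unfold Chi
  split_ifs with h
  · subst h
    refine Finset.prod_eq_one fun j _ => ?_
    simp [chi, kap]
  · have : ∃ j, kap s x j ≠ k j := by
      by_contra hcon
      push Not at hcon
      exact h (funext hcon)
    obtain ⟨j, hj⟩ := this
    refine Finset.prod_eq_zero (Finset.mem_univ j) ?_
    rw [chi, if_neg]
    intro h2
    apply hj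
    apply Fin.ext
    exact h2

lemma sum_mul_Chi (s : Fin d → ℕ) (c : (∀ j, Fin (2 ^ s j)) → ℝ) (x : Torus d) :
    ∑ k : ∀ j, Fin (2 ^ s j), c k * Chi s (fun j => (k j : ℕ)) x = c (kap s x) := by
  simp only [Chi_eq]
  simp

/-- Absolute value of the coefficient of the box containing the point. -/
def G (s : Fin d → ℕ) (a : (∀ j, Fin (2 ^ s j)) → ℝ) (x : Torus d) : ℝ := |a (kap s x)|

lemma G_eq (s : Fin d → ℕ) (a : (∀ j, Fin (2 ^ s j)) → ℝ) (x : Torus d) :
    G s a x = ∑ k : ∀ j, Fin (2 ^ s j), |a k| * Chi s (fun j => (k j : ℕ)) x :=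
  (sum_mul_Chi s (fun k => |a k|) x).symm

lemma measurable_G (s : Fin d → ℕ) (a : (∀ j, Fin (2 ^ s j)) → ℝ) : Measurable (G s a) := by
  have h : G s a = fun x => ∑ k : ∀ j, Fin (2 ^ s j), |a k| * Chi s (fun j => (k j : ℕ)) x :=
    funext (G_eq s a)
  rw [h]
  exact Finset.measurable_sum _ fun k _ => (measurable_Chi _ _).const_mul _

lemma eLpNorm_G (s : Fin d → ℕ) (a : (∀ j, Fin (2 ^ s j)) → ℝ) (ha : ∑ k, a k ^ 2 ≤ 1)
    {p : ℝ} (hp : 2 ≤ p) :
    eLpNorm (G s a) (ENNReal.ofReal p) (μT d) ≤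
      ENNReal.ofReal ((1 / 2 ^ (∑ j, s j)) ^ (1 / p)) := by
  have hp0 : 0 < p := by linarith
  have hle : ∀ k, |a k| ≤ 1 := by
    intro k
    have h1 : a k ^ 2 ≤ ∑ k, a k ^ 2 :=
      Finset.single_le_sum (f := fun k => a k ^ 2) (fun _ _ => sq_nonneg _) (Finset.mem_univ k)
    have h2 : |a k| ^ 2 ≤ 1 := by rw [sq_abs]; linarith
    nlinarith [abs_nonneg (a k)]
  have hmem : MemLp (G s a) (ENNReal.ofReal p) (μT d) := by
    refine MemLp.of_bound (measurable_G s a).aestronglyMeasurable 1 ?_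
    filter_upwards with x
    have hG0 : 0 ≤ G s a x := abs_nonneg _
    rw [Real.norm_of_nonneg hG0]
    exact hle _
  rw [hmem.eLpNorm_eq_integral_rpow_norm (by simpa using hp0) ENNReal.ofReal_ne_top,
    ENNReal.toReal_ofReal hp0.le]
  refine ENNReal.ofReal_le_ofReal ?_
  rw [one_div p]
  refine Real.rpow_le_rpow ?_ ?_ (by positivity)
  · exact integral_nonneg fun x => by positivity
  have h1 : ∀ x, ‖G s a x‖ ^ p =
      ∑ k : ∀ j, Fin (2 ^ s j), |a k| ^ p * Chi s (fun j => (k j : ℕ)) x := by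
    intro x
    have hG0 : 0 ≤ G s a x := abs_nonneg _
    rw [sum_mul_Chi s (fun k => |a k| ^ p) x, Real.norm_of_nonneg hG0]
    rfl
  simp only [h1]
  rw [integral_finsetSum]
  · have h2 : ∀ k : ∀ j, Fin (2 ^ s j),
        ∫ x, |a k| ^ p * Chi s (fun j => (k j : ℕ)) x ∂(μT d) ≤ a k ^ 2 * (1 / 2 ^ (∑ j, s j)) := by
      intro k
      rw [integral_const_mul, integral_Chi s _ (fun j => (k j).2)]
      refine mul_le_mul_of_nonneg_right ?_ (by positivity)
      rw [← sq_abs]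
      rcases (abs_nonneg (a k)).eq_or_lt with h0 | h0
      · rw [← h0, Real.zero_rpow hp0.ne']
        norm_num
      · have h3 := Real.rpow_le_rpow_of_exponent_ge h0 (hle k) hp
        rw [show (2 : ℝ) = ((2 : ℕ) : ℝ) by norm_num, Real.rpow_natCast] at h3
        exact h3
    refine (Finset.sum_le_sum fun k _ => h2 k).trans ?_
    rw [← Finset.sum_mul]
    exact mul_le_of_le_one_left (by positivity) ha
  · intro k _
    refine Integrable.of_bound (C := |a k| ^ p) ?_ ?_
    · exact ((measurable_Chi _ _).const_mul _).aestronglyMeasurable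
    · filter_upwards with x
      rw [Real.norm_of_nonneg (mul_nonneg (by positivity) (Chi_nonneg _ _ _))]
      exact mul_le_of_le_one_right (by positivity) (Chi_le_one _ _ _)

/-- The difference bound property. -/
def DiffBound (l : ℕ) (C : ℝ) : Prop :=
  1 ≤ C ∧ ∀ (a κ : ℕ), κ < 2 ^ a → ∀ (t : ℝ) (x : Circ),
    |((fwdDiff (t : Circ))^[l] (Ps a κ)) x| ≤ C * (min 1 (2 ^ a * |t|)) ^ l *
      ∑ i ∈ Finset.range (l + 1), chi a κ (x + ((i * t : ℝ) : Circ))

lemma exists_diffBound (l : ℕ) : ∃ C, DiffBound l C := exists_diff_bound l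

lemma block_pointwise (l : ℕ) (C : ℝ) (hC : DiffBound l C) (e : Finset (Fin d)) (t : Fin d → ℝ)
    (s : Fin d → ℕ) (a : (∀ j, Fin (2 ^ s j)) → ℝ) (x : Torus d) :
    |mixedDiff l e t
      (∑ k : ∀ j, Fin (2 ^ s j), a k • (Phi s (fun j => (k j : ℕ)) : Torus d → ℝ)) x| ≤
      (∏ j ∈ e, (C * (min 1 (2 ^ s j * |t j|)) ^ l)) *
        ∑ r ∈ Fintype.piFinset (fun j => if j ∈ e then Finset.range (l + 1) else {0}),
          G s a (x + fun j => ((r j * t j : ℝ) : Circ)) := by
  rw [mixedDiff_sum, Finset.sum_apply]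
  have h1 : ∀ k : ∀ j, Fin (2 ^ s j),
      |mixedDiff l e t (Phi s (fun j => (k j : ℕ)) : Torus d → ℝ) x| ≤
      (∏ j ∈ e, (C * (min 1 (2 ^ s j * |t j|)) ^ l)) *
        ∑ r ∈ Fintype.piFinset (fun j => if j ∈ e then Finset.range (l + 1) else {0}),
          Chi s (fun j => (k j : ℕ)) (x + fun j => ((r j * t j : ℝ) : Circ)) := by
    intro k
    have h2 : (Phi s (fun j => (k j : ℕ)) : Torus d → ℝ) =
        fun x => ∏ i, (Ps (s i) (k i) : Circ → ℝ) (x i) := rfl
    rw [h2, mixedDiff_prod l e t (fun i => (Ps (s i) (k i) : Circ → ℝ)), Finset.abs_prod]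
    have h3 : ∀ r : Fin d → ℕ, Chi s (fun j => (k j : ℕ)) (x + fun j => ((r j * t j : ℝ) : Circ)) =
        ∏ j, chi (s j) (k j) (x j + ((r j * t j : ℝ) : Circ)) := fun r => rfl
    simp only [h3]
    rw [← Finset.prod_univ_sum (fun j => if j ∈ e then Finset.range (l + 1) else {0})
      (fun j (r : ℕ) => chi (s j) (k j) (x j + ((r * t j : ℝ) : Circ)))]
    have h4 : ∏ j ∈ e, (C * (min 1 (2 ^ s j * |t j|)) ^ l) =
        ∏ j, (if j ∈ e then C * (min 1 (2 ^ s j * |t j|)) ^ l else 1) := by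
      rw [Finset.prod_ite_mem, Finset.univ_inter]
    rw [h4, ← Finset.prod_mul_distrib]
    refine Finset.prod_le_prod (fun i _ => abs_nonneg _) fun i _ => ?_
    by_cases hi : i ∈ e
    · simp only [hi, if_true]
      exact hC.2 (s i) (k i) (k i).2 (t i) (x i)
    · simp only [hi, if_false, Finset.sum_singleton, one_mul]
      have h5 : x i + (((0 : ℕ) * t i : ℝ) : Circ) = x i := by simp
      rw [h5]
      exact abs_Ps_le _ _ _
  calc |∑ k : ∀ j, Fin (2 ^ s j),
        (a k • mixedDiff l e t (Phi s (fun j => (k j : ℕ)) : Torus d → ℝ)) x|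
      ≤ ∑ k : ∀ j, Fin (2 ^ s j), |a k| * ((∏ j ∈ e, (C * (min 1 (2 ^ s j * |t j|)) ^ l)) *
        ∑ r ∈ Fintype.piFinset (fun j => if j ∈ e then Finset.range (l + 1) else {0}),
          Chi s (fun j => (k j : ℕ)) (x + fun j => ((r j * t j : ℝ) : Circ))) := by
        refine (Finset.abs_sum_le_sum_abs _ _).trans (Finset.sum_le_sum fun k _ => ?_)
        rw [Pi.smul_apply, smul_eq_mul, abs_mul]
        exact mul_le_mul_of_nonneg_left (h1 k) (abs_nonneg _)
    _ = _ := by
        simp only [G_eq, Finset.mul_sum]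
        rw [Finset.sum_comm]
        refine Finset.sum_congr rfl fun r _ => Finset.sum_congr rfl fun k _ => ?_
        ring

lemma block_bound (l : ℕ) (C : ℝ) (hC : DiffBound l C) (e : Finset (Fin d)) (t : Fin d → ℝ)
    (s : Fin d → ℕ) (a : (∀ j, Fin (2 ^ s j)) → ℝ) (ha : ∑ k, a k ^ 2 ≤ 1)
    {p : ℝ} (hp : 2 ≤ p) :
    eLpNorm (mixedDiff l e t
      (∑ k : ∀ j, Fin (2 ^ s j), a k • (Phi s (fun j => (k j : ℕ)) : Torus d → ℝ)))
      (ENNReal.ofReal p) (μT d) ≤
      ENNReal.ofReal ((∏ j ∈ e, (C * (min 1 (2 ^ s j * |t j|)) ^ l)) * ((l : ℝ) + 1) ^ d *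
        (1 / 2 ^ (∑ j, s j)) ^ (1 / p)) := by
  have hp1 : (1 : ℝ≥0∞) ≤ ENNReal.ofReal p := by
    rw [← ENNReal.ofReal_one]
    exact ENNReal.ofReal_le_ofReal (by linarith)
  set A : ℝ := ∏ j ∈ e, (C * (min 1 (2 ^ s j * |t j|)) ^ l) with hA
  have hC0 : 0 ≤ C := by linarith [hC.1]
  have hA0 : 0 ≤ A := by
    refine Finset.prod_nonneg fun j _ => mul_nonneg hC0 (pow_nonneg ?_ _)
    exact le_min zero_le_one (by positivity)
  set R := Fintype.piFinset (fun j : Fin d => if j ∈ e then Finset.range (l + 1) else {0}) with hR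
  have hcard : (R.card : ℝ) ≤ ((l : ℝ) + 1) ^ d := by
    have h1 : R.card ≤ (l + 1) ^ d := by
      rw [hR, Fintype.card_piFinset]
      refine (Finset.prod_le_pow_card _ _ (l + 1) fun j _ => ?_).trans (by simp)
      split_ifs <;> simp
    exact_mod_cast h1
  let v : (Fin d → ℕ) → Torus d := fun r j => ((r j * t j : ℝ) : Circ)
  have h1 : ∀ x, ‖mixedDiff l e t
      (∑ k : ∀ j, Fin (2 ^ s j), a k • (Phi s (fun j => (k j : ℕ)) : Torus d → ℝ)) x‖ ≤
      (A • ∑ r ∈ R, fun x => G s a (x + v r)) x := by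
    intro x
    rw [Real.norm_eq_abs, Pi.smul_apply, Finset.sum_apply, smul_eq_mul]
    exact block_pointwise l C hC e t s a x
  refine (eLpNorm_mono_real h1).trans ?_
  rw [eLpNorm_const_smul]
  have hAe : ‖A‖ₑ = ENNReal.ofReal A := Real.enorm_of_nonneg hA0
  rw [hAe]
  have hmp : ∀ r, MeasurePreserving (fun x : Torus d => x + v r) (μT d) (μT d) :=
    fun r => measurePreserving_add_right (μT d) (v r)
  have h2 : eLpNorm (∑ r ∈ R, fun x => G s a (x + v r)) (ENNReal.ofReal p) (μT d) ≤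
      ENNReal.ofReal (((l : ℝ) + 1) ^ d * (1 / 2 ^ (∑ j, s j)) ^ (1 / p)) := by
    refine (eLpNorm_sum_le ?_ hp1).trans ?_
    · intro r _
      exact ((measurable_G s a).comp (hmp r).measurable).aestronglyMeasurable
    · have h3 : ∀ r ∈ R, eLpNorm (fun x => G s a (x + v r)) (ENNReal.ofReal p) (μT d) ≤
          ENNReal.ofReal ((1 / 2 ^ (∑ j, s j)) ^ (1 / p)) := by
        intro r _
        have h4 := eLpNorm_comp_measurePreserving (p := ENNReal.ofReal p)
          (measurable_G s a).aestronglyMeasurable (hmp r)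
        exact (le_of_eq h4).trans (eLpNorm_G s a ha hp)
      refine (Finset.sum_le_sum h3).trans ?_
      rw [Finset.sum_const, nsmul_eq_mul, ← ENNReal.ofReal_natCast,
        ← ENNReal.ofReal_mul (by positivity)]
      exact ENNReal.ofReal_le_ofReal (mul_le_mul_of_nonneg_right hcard (by positivity))
  refine (mul_le_mul_right h2 _).trans (le_of_eq ?_)
  rw [← ENNReal.ofReal_mul hA0, mul_assoc]

end

end Pool.Agent.MP_bc5265
end

section
/-!
The test functions belong to the mixed Hölder-Nikol'skii class.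
-/
set_option linter.unusedSectionVars false

open MeasureTheory Finset
open scoped fwdDiff ENNReal

namespace Pool.Agent.MP_bc5265

noncomputable section

/-! ### One dimensional sums -/

lemma sum_geom (r : ℝ) (hr : 0 < r) : ∃ D : ℝ, 0 < D ∧ ∀ n : ℕ,
    ∑ a ∈ range n, ((2 : ℝ) ^ a) ^ (-r) ≤ D := by
  set b : ℝ := (2 : ℝ) ^ (-r) with hb
  have hb0 : 0 < b := by positivity
  have hb1 : b < 1 := by
    rw [hb]
    exact Real.rpow_lt_one_of_one_lt_of_neg (by norm_num) (by linarith)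
  refine ⟨1 / (1 - b), by rw [one_div_pos]; linarith, ?_⟩
  intro n
  have h1 : ∀ a ∈ range n, ((2 : ℝ) ^ a) ^ (-r) = b ^ a := by
    intro a _
    rw [hb, ← Real.rpow_natCast, ← Real.rpow_mul (by norm_num), mul_comm,
      Real.rpow_mul (by norm_num), Real.rpow_natCast]
  rw [Finset.sum_congr rfl h1, geom_sum_eq hb1.ne]
  have h2 : (b ^ n - 1) / (b - 1) = (1 - b ^ n) / (1 - b) := by
    rw [← neg_sub, ← neg_sub 1 b, neg_div_neg_eq]
  rw [h2]
  have h3 : 0 < 1 - b := by linarith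
  refine div_le_div_of_nonneg_right ?_ h3.le
  linarith [pow_pos hb0 n]

lemma step_bound {r L z : ℝ} (hr : 0 < r) (hL : r < L) (hz : 0 < z) :
    z ^ (-r) * (min 1 z) ^ L ≤
      2 * (1 + 2 ^ (min r (L - r))) / (2 ^ (min r (L - r)) - 1) *
        ((2 * z) ^ (min r (L - r)) / (1 + (2 * z) ^ (min r (L - r))) -
          z ^ (min r (L - r)) / (1 + z ^ (min r (L - r)))) := by
  set δ := min r (L - r) with hδ
  have hδ0 : 0 < δ := lt_min hr (by linarith)
  set b : ℝ := 2 ^ δ with hb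
  have hb1 : 1 < b := Real.one_lt_rpow (by norm_num) hδ0
  set y := z ^ δ with hy
  have hy0 : 0 < y := Real.rpow_pos_of_pos hz _
  have h2 : (2 * z) ^ δ = b * y := by rw [Real.mul_rpow (by norm_num) hz.le]
  rw [h2]
  have h3 : 2 * (1 + b) / (b - 1) * (b * y / (1 + b * y) - y / (1 + y)) =
      2 * (1 + b) * y / ((1 + b * y) * (1 + y)) := by
    have e1 : b - 1 ≠ 0 := by linarith
    have e2 : 1 + b * y ≠ 0 := by positivity
    have e3 : 1 + y ≠ 0 := by positivity
    field_simp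
    ring
  rw [h3]
  have hden : 0 < (1 + b * y) * (1 + y) := by positivity
  rcases le_total z 1 with hz1 | hz1
  · have hy1 : y ≤ 1 := Real.rpow_le_one hz.le hz1 hδ0.le
    have h4 : z ^ (-r) * (min 1 z) ^ L ≤ y := by
      rw [min_eq_right hz1, ← Real.rpow_add hz]
      exact Real.rpow_le_rpow_of_exponent_ge hz hz1 (by
        have := min_le_right r (L - r)
        linarith)
    refine h4.trans ?_
    rw [le_div_iff₀ hden]
    have h6 : b * y ≤ b := mul_le_of_le_one_right (by linarith) hy1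
    have h5 : (1 + b * y) * (1 + y) ≤ (1 + b) * 2 :=
      mul_le_mul (by linarith) (by linarith) (by positivity) (by positivity)
    have h7 := mul_le_mul_of_nonneg_left h5 hy0.le
    linarith
  · have hy1 : 1 ≤ y := Real.one_le_rpow hz1 hδ0.le
    have h4 : z ^ (-r) * (min 1 z) ^ L ≤ 1 / y := by
      rw [min_eq_left hz1, Real.one_rpow, mul_one, one_div, hy, ← Real.rpow_neg hz.le]
      exact Real.rpow_le_rpow_of_exponent_le hz1 (by
        have := min_le_left r (L - r)
        linarith)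
    refine h4.trans ?_
    rw [div_le_div_iff₀ hy0 hden]
    have h5 : (1 + b * y) * (1 + y) ≤ ((1 + b) * y) * (2 * y) := by
      refine mul_le_mul (by nlinarith) (by linarith) (by positivity) (by positivity)
    nlinarith

lemma sum_step (r : ℝ) (l : ℕ) (hr : 0 < r) (hl : r < l) : ∃ D : ℝ, 0 < D ∧ ∀ (n : ℕ) (t : ℝ),
    ∑ a ∈ range n, ((2 : ℝ) ^ a) ^ (-r) * (min 1 (2 ^ a * |t|)) ^ l ≤ D * |t| ^ r := by
  set δ := min r ((l : ℝ) - r) with hδ
  have hδ0 : 0 < δ := lt_min hr (by linarith)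
  have hb1 : (1 : ℝ) < 2 ^ δ := Real.one_lt_rpow (by norm_num) hδ0
  refine ⟨2 * (1 + 2 ^ δ) / (2 ^ δ - 1), ?_, ?_⟩
  · apply div_pos (by positivity)
    linarith
  intro n t
  set D := 2 * (1 + 2 ^ δ) / ((2 : ℝ) ^ δ - 1) with hD
  have hD0 : 0 < D := by
    rw [hD]
    apply div_pos (by positivity)
    linarith
  rcases eq_or_ne t 0 with ht | ht
  · subst ht
    have hl0 : l ≠ 0 := by
      rintro rfl
      simp at hl
      linarith
    simp [hl0, Real.zero_rpow hr.ne']
  · have hT : 0 < |t| := abs_pos.2 ht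
    let Φ : ℕ → ℝ := fun a => (2 ^ a * |t|) ^ δ / (1 + (2 ^ a * |t|) ^ δ)
    have hΦ0 : ∀ a, 0 ≤ Φ a := fun a => by positivity
    have hΦ1 : ∀ a, Φ a ≤ 1 := by
      intro a
      simp only [Φ]
      rw [div_le_one (by positivity)]
      linarith
    have hterm : ∀ a ∈ range n, ((2 : ℝ) ^ a) ^ (-r) * (min 1 (2 ^ a * |t|)) ^ l ≤
        |t| ^ r * (D * (Φ (a + 1) - Φ a)) := by
      intro a _
      have hz : 0 < 2 ^ a * |t| := by positivity
      have h1 := step_bound hr hl hz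
      have h2 : ((2 : ℝ) ^ a) ^ (-r) = |t| ^ r * (2 ^ a * |t|) ^ (-r) := by
        rw [Real.mul_rpow (by positivity) hT.le, Real.rpow_neg hT.le]
        have : |t| ^ r ≠ 0 := (Real.rpow_pos_of_pos hT r).ne'
        field_simp
      rw [h2, mul_assoc]
      refine mul_le_mul_of_nonneg_left ?_ (by positivity)
      rw [← Real.rpow_natCast (min 1 (2 ^ a * |t|)) l]
      refine h1.trans (le_of_eq ?_)
      simp only [Φ, ← hδ, ← hD]
      rw [pow_succ]
      congr 3 <;> ring_nf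
    refine (Finset.sum_le_sum hterm).trans ?_
    rw [← Finset.mul_sum, ← Finset.mul_sum, Finset.sum_range_sub]
    rw [mul_comm]
    refine mul_le_mul_of_nonneg_right ?_ (by positivity)
    calc D * (Φ n - Φ 0) ≤ D * 1 := by
          refine mul_le_mul_of_nonneg_left ?_ hD0.le
          linarith [hΦ0 0, hΦ1 n]
      _ = D := mul_one D

/-! ### Membership -/

variable {d : ℕ} {B : Type*} [Fintype B]

/-- The test function with coefficients `a`. -/
def ftest (lev : B → Fin d → ℕ) (a : (Σ b, ∀ j, Fin (2 ^ lev b j)) → ℝ) : Torus d → ℝ :=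
  ∑ b, ∑ k : ∀ j, Fin (2 ^ lev b j), a ⟨b, k⟩ • (Phi (lev b) (fun j => (k j : ℕ)) : Torus d → ℝ)

lemma mixedDiff_add_sum (l : ℕ) (e : Finset (Fin d)) (t : Fin d → ℝ) {β : Type*}
    (S : Finset β) (c : ℝ) (f : β → Torus d → ℝ) :
    mixedDiff l e t (c • ∑ b ∈ S, f b) = c • ∑ b ∈ S, mixedDiff l e t (f b) := by
  have h := mixedDiff_sum (𝕜 := ℝ) l e t S (fun _ => c) f
  rw [← Finset.smul_sum, ← Finset.smul_sum] at h
  exact h

lemma total_bound (l : ℕ) (r : ℝ) (hr : 0 < r) (hl : r < l) (d : ℕ) :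
    ∃ c1 : ℝ, 0 < c1 ∧ ∀ {B : Type} [Fintype B] (lev : B → Fin d → ℕ) (n : ℕ),
      Function.Injective lev → (∀ b, ∑ j, lev b j = n) →
      ∀ (a : (Σ b, ∀ j, Fin (2 ^ lev b j)) → ℝ), (∀ b, ∑ k, a ⟨b, k⟩ ^ 2 ≤ 1) →
      ∀ p : ℝ, 2 ≤ p → ∀ (e : Finset (Fin d)) (t : Fin d → ℝ),
        eLpNorm (mixedDiff l e t ((c1 * ((2 ^ n) ^ (-r) * (2 ^ n) ^ (1 / p))) • ftest lev a))
          (ENNReal.ofReal p) (μT d) ≤ ENNReal.ofReal (∏ j ∈ e, |t j| ^ r) := by
  obtain ⟨C, hC⟩ := exists_diffBound l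
  obtain ⟨D0, hD00, hD0⟩ := sum_geom r hr
  obtain ⟨D1, hD10, hD1⟩ := sum_step r l hr hl
  set D : ℝ := max D0 (max D1 1) with hD
  have hDpos : 0 < D := lt_of_lt_of_le hD00 (le_max_left _ _)
  have hC0 : 0 < C := by linarith [hC.1]
  set K : ℝ := C ^ d * ((l : ℝ) + 1) ^ d * D ^ d with hK
  have hK0 : 0 < K := by positivity
  refine ⟨1 / K, by positivity, ?_⟩
  intro B _ lev n hinj hsum a ha p hp e t
  have hp1 : (1 : ℝ≥0∞) ≤ ENNReal.ofReal p := by
    rw [← ENNReal.ofReal_one]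
    exact ENNReal.ofReal_le_ofReal (by linarith)
  set c : ℝ := 1 / K * ((2 ^ n) ^ (-r) * (2 ^ n) ^ (1 / p)) with hc
  have hc0 : 0 ≤ c := by positivity
  unfold ftest
  rw [mixedDiff_add_sum, eLpNorm_const_smul, Real.enorm_of_nonneg hc0]
  have hm0 : ∀ (s : Fin d → ℕ) j, 0 ≤ min 1 (2 ^ s j * |t j|) :=
    fun s j => le_min zero_le_one (by positivity)
  -- triangle inequality
  have h1 : eLpNorm (∑ b, mixedDiff l e t
      (∑ k : ∀ j, Fin (2 ^ lev b j), a ⟨b, k⟩ • (Phi (lev b) (fun j => (k j : ℕ)) : Torus d → ℝ)))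
      (ENNReal.ofReal p) (μT d) ≤
      ENNReal.ofReal (∑ b, (∏ j ∈ e, (C * (min 1 (2 ^ lev b j * |t j|)) ^ l)) * ((l : ℝ) + 1) ^ d *
        (1 / 2 ^ n) ^ (1 / p)) := by
    refine (eLpNorm_sum_le ?_ hp1).trans ?_
    · intro b _
      rw [mixedDiff_sum]
      have hmeas : ∀ k : ∀ j, Fin (2 ^ lev b j), Measurable
          (mixedDiff l e t (Phi (lev b) (fun j => (k j : ℕ)) : Torus d → ℝ)) := by
        intro k
        have h2 : (Phi (lev b) (fun j => (k j : ℕ)) : Torus d → ℝ) =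
          fun x => ∏ i, (Ps (lev b i) (k i) : Circ → ℝ) (x i) := rfl
        rw [h2, mixedDiff_prod l e t (fun i => (Ps (lev b i) (k i) : Circ → ℝ))]
        refine Finset.measurable_prod _ fun i _ => ?_
        have h3 : ∀ (m : ℕ) (f : Circ → ℝ), Continuous f → ∀ u : Circ,
            Continuous ((fwdDiff u)^[m] f) := by
          intro m
          induction m with
          | zero => intro f hf u; exact hf
          | succ m ih =>
            intro f hf u
            rw [Function.iterate_succ_apply]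
            apply ih
            exact (hf.comp (continuous_id.add continuous_const)).sub hf
        split_ifs with hi
        · exact (h3 l _ (Ps _ _).continuous _).measurable.comp (measurable_pi_apply i)
        · exact (Ps _ _).continuous.measurable.comp (measurable_pi_apply i)
      exact Finset.aestronglyMeasurable_sum _ fun k _ =>
        (hmeas k).aestronglyMeasurable.const_smul _
    · rw [ENNReal.ofReal_sum_of_nonneg]
      · refine Finset.sum_le_sum fun b _ => ?_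
        have h2 := block_bound l C hC e t (lev b) (fun k => a ⟨b, k⟩) (ha b) hp
        rw [hsum b] at h2
        exact h2
      · intro b _
        have : 0 ≤ ∏ j ∈ e, (C * (min 1 (2 ^ lev b j * |t j|)) ^ l) :=
          Finset.prod_nonneg fun j _ => mul_nonneg hC0.le (pow_nonneg (hm0 _ _) _)
        positivity
  refine (mul_le_mul_right h1 _).trans ?_
  rw [← ENNReal.ofReal_mul hc0]
  refine ENNReal.ofReal_le_ofReal ?_
  -- the sum over the levels
  let F : (Fin d → ℕ) → ℝ := fun s =>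
    ∏ j, (((2 : ℝ) ^ s j) ^ (-r) * (if j ∈ e then (min 1 (2 ^ s j * |t j|)) ^ l else 1))
  have hF0 : ∀ s, 0 ≤ F s := by
    intro s
    refine Finset.prod_nonneg fun j _ => ?_
    have := hm0 s j
    split_ifs <;> positivity
  have hFsum : ∑ b, F (lev b) ≤ D ^ d * ∏ j ∈ e, |t j| ^ r := by
    classical
    have e1 : ∑ b, F (lev b) = ∑ s ∈ Finset.univ.image lev, F s := by
      rw [Finset.sum_image]
      intro x _ y _ h
      exact hinj h
    rw [e1]
    have e2 : Finset.univ.image lev ⊆ Fintype.piFinset (fun _ : Fin d => range (n + 1)) := by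
      intro s hs
      rw [Finset.mem_image] at hs
      obtain ⟨b, -, rfl⟩ := hs
      rw [Fintype.mem_piFinset]
      intro j
      rw [Finset.mem_range, ← hsum b]
      have := Finset.single_le_sum (f := fun j => lev b j) (fun _ _ => Nat.zero_le _)
        (Finset.mem_univ j)
      exact Nat.lt_succ_of_le this
    refine (Finset.sum_le_sum_of_subset_of_nonneg e2 fun s _ _ => hF0 s).trans ?_
    have e3 := (Finset.prod_univ_sum (fun _ : Fin d => range (n + 1))
      (fun j (q : ℕ) => ((2 : ℝ) ^ q) ^ (-r) *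
        (if j ∈ e then (min 1 (2 ^ q * |t j|)) ^ l else 1))).symm
    refine (le_of_eq e3).trans ?_
    have e4 : D ^ d * ∏ j ∈ e, |t j| ^ r = ∏ j, (D * if j ∈ e then |t j| ^ r else 1) := by
      rw [Finset.prod_mul_distrib, Finset.prod_const, Finset.card_univ, Fintype.card_fin,
        Finset.prod_ite_mem, Finset.univ_inter]
    rw [e4]
    refine Finset.prod_le_prod (fun j _ => ?_) fun j _ => ?_
    · refine Finset.sum_nonneg fun q _ => ?_
      have : 0 ≤ min 1 (2 ^ q * |t j|) := le_min zero_le_one (by positivity)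
      split_ifs <;> positivity
    · by_cases hj : j ∈ e
      · simp only [hj, if_true]
        refine (hD1 (n + 1) (t j)).trans ?_
        refine mul_le_mul_of_nonneg_right ?_ (by positivity)
        exact (le_max_left _ _).trans (le_max_right _ _)
      · simp only [hj, if_false, mul_one]
        exact (hD0 (n + 1)).trans (le_max_left _ _)
  have hterm : ∀ b, c * ((∏ j ∈ e, (C * (min 1 (2 ^ lev b j * |t j|)) ^ l)) * ((l : ℝ) + 1) ^ d *
      (1 / 2 ^ n) ^ (1 / p)) ≤ 1 / K * (C ^ d * ((l : ℝ) + 1) ^ d * F (lev b)) := by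
    intro b
    have e1 : ((2 : ℝ) ^ n) ^ (1 / p) * (1 / 2 ^ n) ^ (1 / p) = 1 := by
      rw [← Real.mul_rpow (by positivity) (by positivity)]
      have : (2 : ℝ) ^ n * (1 / 2 ^ n) = 1 := by field_simp
      rw [this, Real.one_rpow]
    have e2 : ((2 : ℝ) ^ n) ^ (-r) = ∏ j, ((2 : ℝ) ^ lev b j) ^ (-r) := by
      rw [← hsum b, ← Finset.prod_pow_eq_pow_sum, ← Real.finsetProd_rpow]
      intro i _
      positivity
    have e3 : F (lev b) = ((2 : ℝ) ^ n) ^ (-r) * ∏ j ∈ e, (min 1 (2 ^ lev b j * |t j|)) ^ l := by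
      simp only [F]
      rw [Finset.prod_mul_distrib, e2, Finset.prod_ite_mem, Finset.univ_inter]
    have e4 : ∏ j ∈ e, (C * (min 1 (2 ^ lev b j * |t j|)) ^ l) ≤
        C ^ d * ∏ j ∈ e, (min 1 (2 ^ lev b j * |t j|)) ^ l := by
      rw [Finset.prod_mul_distrib, Finset.prod_const]
      refine mul_le_mul_of_nonneg_right ?_ (Finset.prod_nonneg fun j _ => pow_nonneg (hm0 _ _) _)
      refine pow_le_pow_right₀ hC.1 ?_
      simpa using Finset.card_le_univ e
    calc c * ((∏ j ∈ e, (C * (min 1 (2 ^ lev b j * |t j|)) ^ l)) * ((l : ℝ) + 1) ^ d *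
        (1 / 2 ^ n) ^ (1 / p))
        ≤ c * ((C ^ d * ∏ j ∈ e, (min 1 (2 ^ lev b j * |t j|)) ^ l) * ((l : ℝ) + 1) ^ d *
        (1 / 2 ^ n) ^ (1 / p)) := by
          refine mul_le_mul_of_nonneg_left ?_ hc0
          refine mul_le_mul_of_nonneg_right ?_ (by positivity)
          exact mul_le_mul_of_nonneg_right e4 (by positivity)
      _ = 1 / K * (C ^ d * ((l : ℝ) + 1) ^ d * (((2 : ℝ) ^ n) ^ (-r) *
            ∏ j ∈ e, (min 1 (2 ^ lev b j * |t j|)) ^ l)) *
            (((2 : ℝ) ^ n) ^ (1 / p) * (1 / 2 ^ n) ^ (1 / p)) := by rw [hc]; ring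
      _ = _ := by rw [e1, mul_one, e3]
  rw [Finset.mul_sum]
  refine (Finset.sum_le_sum fun b _ => hterm b).trans ?_
  rw [← Finset.mul_sum, ← Finset.mul_sum]
  calc 1 / K * (C ^ d * ((l : ℝ) + 1) ^ d * ∑ b, F (lev b))
      ≤ 1 / K * (C ^ d * ((l : ℝ) + 1) ^ d * (D ^ d * ∏ j ∈ e, |t j| ^ r)) := by
        refine mul_le_mul_of_nonneg_left ?_ (by positivity)
        exact mul_le_mul_of_nonneg_left hFsum (by positivity)
    _ = (1 / K * K) * ∏ j ∈ e, |t j| ^ r := by rw [hK]; ring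
    _ = _ := by rw [one_div_mul_cancel hK0.ne', one_mul]

end

end Pool.Agent.MP_bc5265
end

section
/-!
The lower bound for linear methods.
-/
set_option linter.unusedSectionVars false

open MeasureTheory Finset
open scoped fwdDiff ENNReal

namespace Pool.Agent.MP_bc5265

noncomputable section

/-- The levels: `e` small levels, the last one makes the sum equal to `e k`. -/
def lev (e k : ℕ) (b : Fin e → Fin k) : Fin (e + 1) → ℕ :=
  Fin.cons (e * k - ∑ j, (b j : ℕ)) (fun j => (b j : ℕ))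

lemma lev_sum (e k : ℕ) (b : Fin e → Fin k) : ∑ j, lev e k b j = e * k := by
  rw [Fin.sum_univ_succ]
  simp only [lev, Fin.cons_zero, Fin.cons_succ]
  have h : ∑ j, (b j : ℕ) ≤ e * k := by
    calc ∑ j, (b j : ℕ) ≤ ∑ _j : Fin e, k := Finset.sum_le_sum fun j _ => (b j).2.le
      _ = e * k := by simp
  omega

lemma lev_injective (e k : ℕ) : Function.Injective (lev e k) := by
  intro b b' h
  funext j
  have := congrFun h j.succ
  simp only [lev, Fin.cons_succ] at this
  exact Fin.ext this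

variable {𝕜 : Type} [RCLike 𝕜]

lemma continuous_ftest {d : ℕ} {B : Type*} [Fintype B] (lv : B → Fin d → ℕ)
    (a : (Σ b, ∀ j, Fin (2 ^ lv b j)) → ℝ) : Continuous (ftest lv a) := by
  have h : ftest lv a = fun x => ∑ b, ∑ k : ∀ j, Fin (2 ^ lv b j),
      a ⟨b, k⟩ * Phi (lv b) (fun j => (k j : ℕ)) x := by
    funext x
    simp [ftest]
  rw [h]
  exact continuous_finsetSum _ fun b _ => continuous_finsetSum _ fun k _ =>
    continuous_const.mul (Phi _ _).continuous

/-- The test function, `𝕜`-valued. -/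
def fC {d : ℕ} {B : Type*} [Fintype B] (lv : B → Fin d → ℕ) :
    ((Σ b, ∀ j, Fin (2 ^ lv b j)) → ℝ) → C(Torus d, 𝕜) := fun a =>
  ⟨fun x => ((ftest lv a x : ℝ) : 𝕜), RCLike.continuous_ofReal.comp (continuous_ftest lv a)⟩

lemma ftest_add {d : ℕ} {B : Type*} [Fintype B] (lv : B → Fin d → ℕ)
    (a a' : (Σ b, ∀ j, Fin (2 ^ lv b j)) → ℝ) :
    ftest lv (a + a') = ftest lv a + ftest lv a' := by
  unfold ftest
  rw [← Finset.sum_add_distrib]
  refine Finset.sum_congr rfl fun b _ => ?_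
  rw [← Finset.sum_add_distrib]
  refine Finset.sum_congr rfl fun k _ => ?_
  rw [Pi.add_apply, add_smul]

lemma ftest_smul {d : ℕ} {B : Type*} [Fintype B] (lv : B → Fin d → ℕ) (c : ℝ)
    (a : (Σ b, ∀ j, Fin (2 ^ lv b j)) → ℝ) : ftest lv (c • a) = c • ftest lv a := by
  unfold ftest
  rw [Finset.smul_sum]
  refine Finset.sum_congr rfl fun b _ => ?_
  rw [Finset.smul_sum]
  refine Finset.sum_congr rfl fun k _ => ?_
  rw [Pi.smul_apply, smul_assoc]

lemma fC_add {d : ℕ} {B : Type*} [Fintype B] (lv : B → Fin d → ℕ)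
    (a a' : (Σ b, ∀ j, Fin (2 ^ lv b j)) → ℝ) :
    fC (𝕜 := 𝕜) lv (a + a') = fC lv a + fC lv a' := by
  ext x
  simp [fC, ftest_add]

lemma fC_smul {d : ℕ} {B : Type*} [Fintype B] (lv : B → Fin d → ℕ) (c : ℝ)
    (a : (Σ b, ∀ j, Fin (2 ^ lv b j)) → ℝ) :
    fC (𝕜 := 𝕜) lv (c • a) = (c : 𝕜) • fC lv a := by
  ext x
  simp [fC, ftest_smul]

/-- Real and imaginary parts of the functionals. -/
def Lmap {d m : ℕ} {B : Type*} [Fintype B] (lv : B → Fin d → ℕ)
    (Λ : Fin m → (C(Torus d, 𝕜) →ₗ[𝕜] 𝕜)) :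
    ((Σ b, ∀ j, Fin (2 ^ lv b j)) → ℝ) →ₗ[ℝ] (Fin m ⊕ Fin m → ℝ) where
  toFun a := Sum.elim (fun j => RCLike.re (Λ j (fC lv a))) (fun j => -RCLike.im (Λ j (fC lv a)))
  map_add' a a' := by
    funext j
    rcases j with j | j
    · simp [fC_add]
    · simp [fC_add, add_comm]
  map_smul' c a := by
    funext j
    rcases j with j | j
    · simp [fC_smul, RCLike.smul_re]
    · simp [fC_smul, RCLike.smul_im]

lemma mixedDiff_empty {d : ℕ} (l : ℕ) (t : Fin d → ℝ) (f : Torus d → ℝ) :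
    mixedDiff l ∅ t f = f := by
  unfold mixedDiff
  simp

lemma abs_Phi_le {d : ℕ} (s k : Fin d → ℕ) (x : Torus d) : |Phi s k x| ≤ 1 := by
  rw [Phi_apply, Finset.abs_prod]
  exact Finset.prod_le_one (fun _ _ => abs_nonneg _) fun _ _ => abs_Ps_le_one _ _ _

/-- The lower bound with an explicit number of blocks. -/
theorem lower_layer (e l : ℕ) (r q : ℝ) (hr : 0 < r) (hl : r < l) (hq : 2 < q) :
    ∃ c : ℝ, 0 < c ∧ ∀ p : ℝ, 2 ≤ p → ∀ k m : ℕ, 8 * m ≤ 2 ^ (e * k) * k ^ e →
      ∀ (Λ : Fin m → (C(Torus (e + 1), 𝕜) →ₗ[𝕜] 𝕜)) (ψ : Fin m → Torus (e + 1) → 𝕜),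
        (∀ i, MemLp (ψ i) (ENNReal.ofReal q) (μT (e + 1))) →
        ∃ f ∈ HClass 𝕜 (e + 1) l r (ENNReal.ofReal p),
          ENNReal.ofReal (c * ((2 : ℝ) ^ (e * k)) ^ (-(r - 1 / p + 1 / q)) *
            ((k : ℝ) ^ e) ^ (1 / q)) ≤
          eLpNorm (fun y => f y - ∑ i, Λ i f * ψ i y) (ENNReal.ofReal q) (μT (e + 1)) := by
  obtain ⟨c1, hc1, htot⟩ := total_bound l r hr hl (e + 1)
  have hq0 : 0 < q := by linarith
  set κ : ℝ := (2 * c0) ^ (e + 1) with hκ
  have hκ0 : 0 < κ := by have := c0_pos; positivity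
  set c2 : ℝ := q * (κ / 2) ^ q * cq q ^ q / 2 with hc2
  have hc20 : 0 < c2 := by
    have h1 := cq_pos q
    have h2 : 0 < cq q ^ q := Real.rpow_pos_of_pos h1 _
    have h3 : 0 < (κ / 2) ^ q := Real.rpow_pos_of_pos (by positivity) _
    positivity
  refine ⟨c1 * c2 ^ (1 / q), by positivity, ?_⟩
  intro p hp k m hm Λ ψ hψ
  let lv := lev e k
  let ι : (Fin e → Fin k) → Type := fun b => ∀ j : Fin (e + 1), Fin (2 ^ lv b j)
  let φ : (Σ b, ι b) → Torus (e + 1) → ℝ := fun i => Phi (lv i.1) (fun j => (i.2 j : ℕ))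
  let h : (Σ b, ι b) → Torus (e + 1) → ℝ := fun i => Haf (lv i.1) (fun j => (i.2 j : ℕ))
  let ψ' : Fin m ⊕ Fin m → Torus (e + 1) → ℝ :=
    Sum.elim (fun j x => RCLike.re (ψ j x)) (fun j x => RCLike.im (ψ j x))
  have hcard : ∀ b, Fintype.card (ι b) = 2 ^ (e * k) := by
    intro b
    simp only [ι, Fintype.card_pi, Fintype.card_fin]
    rw [Finset.prod_pow_eq_pow_sum, lev_sum]
  have hJ : 4 * Fintype.card (Fin m ⊕ Fin m) ≤ 2 ^ (e * k) * Fintype.card (Fin e → Fin k) := by
    rw [Fintype.card_sum, Fintype.card_fin, Fintype.card_fun, Fintype.card_fin, Fintype.card_fin]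
    linarith
  have hφ : ∀ i, MemLp (φ i) (ENNReal.ofReal q) (μT (e + 1)) := by
    intro i
    refine MemLp.of_bound (Phi _ _).continuous.aestronglyMeasurable 1 ?_
    filter_upwards with x
    exact abs_Phi_le _ _ x
  have hhm : ∀ i, AEStronglyMeasurable (h i) (μT (e + 1)) := fun i =>
    (measurable_Haf _ _).aestronglyMeasurable
  have hh : ∀ i x, |h i x| ≤ 1 := by
    intro i x
    simp only [h]
    rw [abs_Haf]
    exact Chi_le_one _ _ _
  have hh1 : ∀ i, ∫ x, |h i x| ∂(μT (e + 1)) ≤ 1 / ((2 ^ (e * k) : ℕ) : ℝ) := by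
    intro i
    simp only [h, abs_Haf]
    rw [integral_Chi _ _ (fun j => (i.2 j).2), lev_sum]
    push_cast
    exact le_rfl
  have horth : ∀ i i', ∫ x, φ i' x * h i x ∂(μT (e + 1)) =
      if i = i' then κ / ((2 ^ (e * k) : ℕ) : ℝ) else 0 := by
    rintro ⟨b, x⟩ ⟨b', x'⟩
    simp only [φ, h]
    by_cases hb : b = b'
    · subst hb
      rw [integral_same _ _ _ (fun j => (x' j).2), lev_sum]
      by_cases hx : x = x'
      · subst hx
        simp [hκ]
      · rw [if_neg, if_neg]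
        · intro h2
          apply hx
          rw [Sigma.mk.injEq] at h2
          exact eq_of_heq h2.2
        · intro h2
          apply hx
          funext j
          exact Fin.ext (congrFun h2 j)
    · rw [if_neg, integral_ne _ _ _ _ (fun j => (x' j).2)]
      · intro h2
        exact hb (lev_injective e k h2)
      · rw [lev_sum, lev_sum]
      · intro h2
        apply hb
        rw [Sigma.mk.injEq] at h2
        exact h2.1
  have hψ' : ∀ j, MemLp (ψ' j) (ENNReal.ofReal q) (μT (e + 1)) := by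
    rintro (j | j)
    · exact (hψ j).re
    · exact (hψ j).im
  obtain ⟨a, ha, hlow⟩ := abstract_lower hq hκ0 (μT (e + 1)) (2 ^ (e * k)) (by positivity) hcard
    hJ φ h hφ hhm hh hh1 horth ψ' hψ' (Lmap lv Λ)
  rw [← hc2] at hlow
  -- the error function
  have hre : ∀ x, |gerr φ ψ' (Lmap lv Λ) a x| ≤ ‖fC (𝕜 := 𝕜) lv a x - ∑ j, Λ j (fC lv a) * ψ j x‖ := by
    intro x
    have h1 : gerr φ ψ' (Lmap lv Λ) a x =
        RCLike.re (fC (𝕜 := 𝕜) lv a x - ∑ j, Λ j (fC lv a) * ψ j x) := by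
      unfold gerr
      rw [Fintype.sum_sum_type, Fintype.sum_sigma]
      simp only [map_sub, map_sum, RCLike.mul_re]
      congr 1
      · simp only [fC, ContinuousMap.coe_mk, RCLike.ofReal_re, ftest, Finset.sum_apply,
          Pi.smul_apply, smul_eq_mul]
        rfl
      · rw [← Finset.sum_add_distrib]
        refine Finset.sum_congr rfl fun j _ => ?_
        simp only [Lmap, LinearMap.coe_mk, AddHom.coe_mk, Sum.elim_inl, Sum.elim_inr, ψ']
        ring
    rw [h1]
    exact RCLike.abs_re_le_norm _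
  set n := e * k with hn
  set c' : ℝ := c1 * ((2 ^ n) ^ (-r) * (2 ^ n) ^ (1 / p)) with hc'
  have hc'0 : 0 ≤ c' := by positivity
  let f : C(Torus (e + 1), 𝕜) := (c' : 𝕜) • fC lv a
  have hfun : (f : Torus (e + 1) → 𝕜) = fun x => (((c' • ftest lv a) x : ℝ) : 𝕜) := by
    funext x
    simp [f, fC]
  have hnorm : ∀ (g : Torus (e + 1) → ℝ) (u : ℝ≥0∞),
      eLpNorm (fun x => ((g x : ℝ) : 𝕜)) u (μT (e + 1)) = eLpNorm g u (μT (e + 1)) := by
    intro g u
    refine eLpNorm_congr_norm_ae ?_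
    filter_upwards with x
    simp
  have hmem : f ∈ HClass 𝕜 (e + 1) l r (ENNReal.ofReal p) := by
    have hb := htot lv n (lev_injective e k) (lev_sum e k) a ha p hp
    constructor
    · rw [hfun, hnorm]
      have h1 := hb ∅ 0
      simp only [Finset.prod_empty, ENNReal.ofReal_one, mixedDiff_empty] at h1
      exact h1
    · intro e' _ t
      rw [hfun, mixedDiff_ofReal, hnorm]
      exact hb e' t
  refine ⟨f, hmem, ?_⟩
  have herr : (fun y => f y - ∑ i, Λ i f * ψ i y) =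
      (c' : 𝕜) • fun y => (fC (𝕜 := 𝕜) lv a y - ∑ i, Λ i (fC lv a) * ψ i y) := by
    funext y
    simp only [f, ContinuousMap.coe_smul, Pi.smul_apply, smul_eq_mul, map_smul, mul_sub,
      Finset.mul_sum, mul_assoc]
  rw [herr, eLpNorm_const_smul]
  have hge : eLpNorm (gerr φ ψ' (Lmap lv Λ) a) (ENNReal.ofReal q) (μT (e + 1)) ≤
      eLpNorm (fun y => (fC (𝕜 := 𝕜) lv a y - ∑ i, Λ i (fC lv a) * ψ i y)) (ENNReal.ofReal q)
        (μT (e + 1)) := by
    refine eLpNorm_mono ?_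
    intro x
    rw [Real.norm_eq_abs]
    exact hre x
  have hgm := memLp_gerr φ ψ' (Lmap lv Λ) hφ hψ' a
  have hge2 : ENNReal.ofReal ((c2 * ((k : ℝ) ^ e / 2 ^ n)) ^ (1 / q)) ≤
      eLpNorm (gerr φ ψ' (Lmap lv Λ) a) (ENNReal.ofReal q) (μT (e + 1)) := by
    rw [hgm.eLpNorm_eq_integral_rpow_norm (by simpa using hq0) ENNReal.ofReal_ne_top,
      ENNReal.toReal_ofReal hq0.le]
    refine ENNReal.ofReal_le_ofReal ?_
    rw [one_div]
    refine Real.rpow_le_rpow (by positivity) ?_ (by positivity)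
    rw [Fintype.card_fun, Fintype.card_fin, Fintype.card_fin] at hlow
    push_cast at hlow
    exact hlow
  have he : ‖(c' : 𝕜)‖ₑ = ENNReal.ofReal c' := by
    rw [← ofReal_norm, RCLike.norm_ofReal, abs_of_nonneg hc'0]
  rw [he]
  refine le_trans ?_ (mul_le_mul_right (hge2.trans hge) _)
  rw [← ENNReal.ofReal_mul hc'0]
  refine ENNReal.ofReal_le_ofReal (le_of_eq ?_)
  have hN : (0 : ℝ) < 2 ^ n := by positivity
  rw [Real.mul_rpow hc20.le (by positivity), Real.div_rpow (by positivity) hN.le]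
  have e1 : ((2 : ℝ) ^ n) ^ (-(r - 1 / p + 1 / q)) =
      (2 ^ n) ^ (-r) * (2 ^ n) ^ (1 / p) * ((2 ^ n) ^ (1 / q))⁻¹ := by
    rw [← Real.rpow_neg hN.le, ← Real.rpow_add hN, ← Real.rpow_add hN]
    congr 1
    ring
  rw [e1, hc']
  ring

end

end Pool.Agent.MP_bc5265
end
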